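import Pool.Agent.T9h23.Ru.R7

/-! # Exceptions in one range of arguments -/

set_option autoImplicit false

namespace T9h23.Ru

open Finset T9h23.Op
open scoped Classical

/-- the size of the values -/
theorem mv_le {d H : ℕ} (hd : 1 ≤ d) (a : Fin d → ℤ) (ha : InBox H a) (n M : ℤ) (hn : |n| ≤ M) (hM : (H : ℤ) ≤ M) :
    |mv a n| ≤ (d + 1) * M ^ d := by
  have hM0 : 0 ≤ M := le_trans (abs_nonneg _) hn
  have h1 := ev_le a ha n M hn hM
  rw [mv_ev]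
  refine (abs_add_le _ _).trans ?_
  rw [abs_pow]
  have h2 : |n| ^ d ≤ M ^ d := pow_le_pow_left₀ (abs_nonneg _) hn d
  have h3 : (d : ℤ) * H * M ^ (d - 1) ≤ d * M ^ d := by
    have e : M ^ d = M * M ^ (d - 1) := by
      rw [← pow_succ']; congr 1; omega
    rw [e, mul_assoc]
    gcongr
  linarith

/-- **One range.** -/
theorem block (e : ℕ) (he : 2 ≤ e) (K γ : ℝ) (hK : 0 < K) (_hγ0 : 0 < γ)
    (hγ : 3 * (e : ℝ) * γ ≤ 5 * (e : ℝ) / 3 + 1 / 20)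
    (hcount : ∀ Y : ℝ, 1 ≤ Y → ∀ U : Finset ℤ, (∀ y ∈ U, |(y : ℝ)| ≤ Y ∧ Bad y) → (U.card : ℝ) ≤ K * Y ^ γ)
    (H N : ℕ) (hH : 1 ≤ H) (hN : H ≤ N) (hNτ : (N : ℝ) ≤ (H : ℝ) ^ (2 * (e : ℝ) + 11 / 10)) :
    (((wbox (3 * e) H).filter (fun a => ∃ n : ℤ, (N : ℤ) ≤ |n| ∧ |n| ≤ 2 * N ∧ Bad (mv a n))).card : ℝ) ≤
      (wbox (3 * e) H).card * (K * ((3 * e + 1) * 2 ^ (3 * e)) ^ γ * (6 * e + 2) * 2 ^ (3 * e) *
        (H : ℝ) ^ (3 * (e : ℝ) * γ - (3 * e - 1))) := by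
  have hHr : (1 : ℝ) ≤ H := by exact_mod_cast hH
  have hH0 : (0 : ℝ) < H := by linarith
  have hNr : (H : ℝ) ≤ N := by exact_mod_cast hN
  have hN0 : (0 : ℝ) < N := by linarith
  have he2 : (2 : ℝ) ≤ e := by exact_mod_cast he
  have hq : 1 ≤ (N : ℝ) / H := by rw [le_div_iff₀ hH0]; linarith
  have hq0 : 0 < (N : ℝ) / H := by linarith
  set T : ℝ := ((wbox (3 * e) H).card : ℝ) with hT
  set M : ℤ := ((3 * e : ℕ) + 1) * (2 * (N : ℤ)) ^ (3 * e) with hM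
  set V := (Icc (-M) M).filter (fun v => Bad v) with hV
  set S : ℤ → Finset ℤ := fun v => (Icc (-(2 * (N : ℤ))) (2 * N)).filter
    (fun n => n ≠ 0 ∧ |v - n ^ (3 * e)| ≤ ((3 * e * H : ℕ) : ℤ) * |n| ^ (3 * e - 1) ∧ (N : ℤ) ≤ |n|) with hS
  set Q : ℝ := T * ((2 * (H : ℝ) + 1)⁻¹ * (2 ^ (3 * e - 1) *
        ((H : ℝ) ^ (3 * e - 1) * ((N : ℝ) / H) ^ (5 * (e : ℝ) / 3 + 1 / 20))⁻¹)) with hQ
  have hQ0 : 0 ≤ Q := by positivity
  have hsub : (wbox (3 * e) H).filter (fun a => ∃ n : ℤ, (N : ℤ) ≤ |n| ∧ |n| ≤ 2 * N ∧ Bad (mv a n)) ⊆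
      V.biUnion (fun v => (S v).biUnion (fun n => (wbox (3 * e) H).filter (fun a => mv a n = v))) := by
    intro a ha
    rw [mem_filter] at ha
    obtain ⟨ha1, n, hn1, hn2, hbad⟩ := ha
    have hbox := mem_wbox.1 ha1
    rw [mem_biUnion]
    refine ⟨mv a n, ?_, ?_⟩
    · rw [hV, mem_filter, mem_Icc, ← abs_le]
      refine ⟨?_, hbad⟩
      have h1 := mv_le (by omega) a hbox n (2 * N) hn2 (by omega)
      exact h1
    · rw [mem_biUnion]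
      refine ⟨n, ?_, ?_⟩
      · rw [hS]
        dsimp only
        rw [mem_filter, mem_Icc, ← abs_le]
        refine ⟨hn2, ?_, ?_, hn1⟩
        · rintro rfl
          simp at hn1
          omega
        · have h1 := ev_le a hbox n |n| (le_refl _) (by omega)
          rw [mv_ev, add_sub_cancel_left]
          push_cast at h1 ⊢
          exact h1
      · rw [mem_filter]
        exact ⟨ha1, rfl⟩
  have hSc : ∀ v, (S v).card ≤ 4 * (3 * e * H) + 2 := by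
    intro v
    refine few_n (3 * e) (3 * e * H) (by omega) v (S v) ?_
    intro n hn
    rw [hS] at hn
    dsimp only at hn
    rw [mem_filter] at hn
    exact ⟨hn.2.1, hn.2.2.1⟩
  have hfib : ∀ v, ∀ n ∈ S v, (((wbox (3 * e) H).filter (fun a => mv a n = v)).card : ℝ) ≤ Q := by
    intro v n hn
    rw [hS] at hn
    dsimp only at hn
    rw [mem_filter] at hn
    exact ratio_large e he H N hH hN hNτ n v hn.2.2.2
  have hVc : (V.card : ℝ) ≤ K * ((3 * e + 1) * (2 * (N : ℝ)) ^ (3 * e)) ^ γ := by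
    apply hcount
    · have h1 : (1 : ℝ) ≤ (2 * (N : ℝ)) ^ (3 * e) := one_le_pow₀ (by linarith)
      nlinarith
    · intro y hy
      rw [hV, mem_filter, mem_Icc, ← abs_le] at hy
      refine ⟨?_, hy.2⟩
      have h1 : ((|y| : ℤ) : ℝ) ≤ ((M : ℤ) : ℝ) := by exact_mod_cast hy.1
      rw [hM] at h1
      push_cast at h1
      exact h1
  have h1 : (((V.biUnion (fun v => (S v).biUnion (fun n => (wbox (3 * e) H).filter
      (fun a => mv a n = v)))).card : ℕ) : ℝ) ≤ V.card * ((4 * (3 * e * H) + 2 : ℕ) * Q) := by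
    have h2 : (((V.biUnion (fun v => (S v).biUnion (fun n => (wbox (3 * e) H).filter
      (fun a => mv a n = v)))).card : ℕ) : ℝ) ≤ ∑ v ∈ V, (((S v).biUnion (fun n => (wbox (3 * e) H).filter
      (fun a => mv a n = v))).card : ℝ) := by
      exact_mod_cast Finset.card_biUnion_le
    refine h2.trans ?_
    refine (Finset.sum_le_card_nsmul V _ ((4 * (3 * e * H) + 2 : ℕ) * Q) ?_).trans (le_of_eq (nsmul_eq_mul _ _))
    intro v _
    have h3 : (((S v).biUnion (fun n => (wbox (3 * e) H).filter (fun a => mv a n = v))).card : ℝ) ≤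
        ∑ n ∈ S v, (((wbox (3 * e) H).filter (fun a => mv a n = v)).card : ℝ) := by
      exact_mod_cast Finset.card_biUnion_le
    refine h3.trans ((Finset.sum_le_card_nsmul (S v) _ Q (hfib v)).trans ?_)
    rw [nsmul_eq_mul]
    have h4 : ((S v).card : ℝ) ≤ ((4 * (3 * e * H) + 2 : ℕ) : ℝ) := by exact_mod_cast hSc v
    gcongr
  refine (show _ ≤ _ by exact_mod_cast Finset.card_le_card hsub).trans (h1.trans ?_)
  -- the final computation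
  have hden : (0 : ℝ) < 2 * H + 1 := by positivity
  have g1 : ((4 * (3 * e * H) + 2 : ℕ) : ℝ) * (2 * (H : ℝ) + 1)⁻¹ ≤ 6 * e + 2 := by
    rw [← div_eq_mul_inv, div_le_iff₀ hden]
    push_cast
    nlinarith
  have g2 : ((3 * (e : ℝ) + 1) * (2 * (N : ℝ)) ^ (3 * e)) ^ γ = ((3 * (e : ℝ) + 1) * 2 ^ (3 * e)) ^ γ *
      ((H : ℝ) ^ (3 * (e : ℝ) * γ) * ((N : ℝ) / H) ^ (3 * (e : ℝ) * γ)) := by
    have h2 : (3 * (e : ℝ) + 1) * (2 * (N : ℝ)) ^ (3 * e) = ((3 * (e : ℝ) + 1) * 2 ^ (3 * e)) * (N : ℝ) ^ (3 * e) := by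
      rw [mul_pow]; ring
    rw [h2, Real.mul_rpow (by positivity) (by positivity), ← Real.mul_rpow hH0.le hq0.le]
    congr 1
    have h3 : (H : ℝ) * ((N : ℝ) / H) = N := by field_simp
    rw [h3, ← Real.rpow_natCast (N : ℝ) (3 * e), ← Real.rpow_mul hN0.le]
    congr 1
    push_cast
    ring
  have g3 : ((N : ℝ) / H) ^ (3 * (e : ℝ) * γ) * (((N : ℝ) / H) ^ (5 * (e : ℝ) / 3 + 1 / 20))⁻¹ ≤ 1 := by
    rw [← div_eq_mul_inv, div_le_one (by positivity)]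
    exact Real.rpow_le_rpow_of_exponent_le hq hγ
  have g4 : (H : ℝ) ^ (3 * (e : ℝ) * γ) * ((H : ℝ) ^ (3 * e - 1))⁻¹ = (H : ℝ) ^ (3 * (e : ℝ) * γ - (3 * e - 1)) := by
    rw [Real.rpow_sub hH0, div_eq_mul_inv]
    congr 2
    rw [← Real.rpow_natCast, Nat.cast_sub (by omega)]
    push_cast
    rfl
  have g5 : (2 : ℝ) ^ (3 * e - 1) ≤ 2 ^ (3 * e) := pow_le_pow_right₀ (by norm_num) (by omega)
  calc (V.card : ℝ) * (((4 * (3 * e * H) + 2 : ℕ) : ℝ) * Q)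
      ≤ (K * ((3 * e + 1) * (2 * (N : ℝ)) ^ (3 * e)) ^ γ) * (((4 * (3 * e * H) + 2 : ℕ) : ℝ) * Q) := by gcongr
    _ = T * (K * ((3 * (e : ℝ) + 1) * 2 ^ (3 * e)) ^ γ * (((4 * (3 * e * H) + 2 : ℕ) : ℝ) * (2 * (H : ℝ) + 1)⁻¹) *
        2 ^ (3 * e - 1) * ((H : ℝ) ^ (3 * (e : ℝ) * γ) * ((H : ℝ) ^ (3 * e - 1))⁻¹) *
        (((N : ℝ) / H) ^ (3 * (e : ℝ) * γ) * (((N : ℝ) / H) ^ (5 * (e : ℝ) / 3 + 1 / 20))⁻¹)) := by
        rw [g2, hQ, mul_inv]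
        ring
    _ ≤ T * (K * ((3 * (e : ℝ) + 1) * 2 ^ (3 * e)) ^ γ * (6 * e + 2) *
        2 ^ (3 * e) * ((H : ℝ) ^ (3 * (e : ℝ) * γ - (3 * e - 1))) * 1) := by
        rw [g4]
        gcongr
    _ = _ := by ring

/-- **Small arguments.** -/
theorem small (e : ℕ) (he : 2 ≤ e) (K γ : ℝ) (hK : 0 < K) (_hγ0 : 0 < γ)
    (hcount : ∀ Y : ℝ, 1 ≤ Y → ∀ U : Finset ℤ, (∀ y ∈ U, |(y : ℝ)| ≤ Y ∧ Bad y) → (U.card : ℝ) ≤ K * Y ^ γ)
    (H : ℕ) (hH : 1 ≤ H) :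
    (((wbox (3 * e) H).filter (fun a => ∃ n : ℤ, |n| ≤ H ∧ Bad (mv a n))).card : ℝ) ≤
      (wbox (3 * e) H).card * (3 * K * (3 * e + 1) ^ γ * (H : ℝ) ^ (3 * (e : ℝ) * γ - (3 * e - 1))) := by
  have hHr : (1 : ℝ) ≤ H := by exact_mod_cast hH
  have hH0 : (0 : ℝ) < H := by linarith
  have he2 : (2 : ℝ) ≤ e := by exact_mod_cast he
  set T : ℝ := ((wbox (3 * e) H).card : ℝ) with hT
  set M : ℤ := ((3 * e : ℕ) + 1) * (H : ℤ) ^ (3 * e) with hM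
  set V := (Icc (-M) M).filter (fun v => Bad v) with hV
  set Q : ℝ := T * (2 * (H : ℝ) ^ (3 * e) + 1)⁻¹ with hQ
  have hsub : (wbox (3 * e) H).filter (fun a => ∃ n : ℤ, |n| ≤ H ∧ Bad (mv a n)) ⊆
      V.biUnion (fun v => (Icc (-(H : ℤ)) H).biUnion (fun n => (wbox (3 * e) H).filter (fun a => mv a n = v))) := by
    intro a ha
    rw [mem_filter] at ha
    obtain ⟨ha1, n, hn1, hbad⟩ := ha
    have hbox := mem_wbox.1 ha1
    rw [mem_biUnion]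
    refine ⟨mv a n, ?_, ?_⟩
    · rw [hV, mem_filter, mem_Icc, ← abs_le]
      refine ⟨?_, hbad⟩
      have h1 := mv_le (by omega) a hbox n H hn1 (le_refl _)
      exact h1
    · rw [mem_biUnion]
      refine ⟨n, ?_, ?_⟩
      · rw [mem_Icc, ← abs_le]
        exact hn1
      · rw [mem_filter]
        exact ⟨ha1, rfl⟩
  have hfib : ∀ v n : ℤ, (((wbox (3 * e) H).filter (fun a => mv a n = v)).card : ℝ) ≤ Q := by
    intro v n
    have key : ∀ d : ℕ, 1 ≤ d → (((wbox d H).filter (fun a => mv a n = v)).card : ℝ) ≤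
        ((wbox d H).card : ℝ) * (2 * (H : ℝ) ^ d + 1)⁻¹ := by
      intro d hd
      obtain ⟨D, rfl⟩ : ∃ D, d = D + 1 := ⟨d - 1, by omega⟩
      rw [filter_mv]
      have h1 := cnt0 n (v - n ^ (D + 1)) D (fun i : Fin (D + 1) => H ^ (D + 1 - (i : ℕ)))
      rw [← div_eq_mul_inv, le_div_iff₀ (by positivity)]
      have h2 : ((((wbox (D + 1) H).filter (fun a => ev a n = v - n ^ (D + 1))).card *
        (2 * H ^ (D + 1 - ((0 : Fin (D + 1)) : ℕ)) + 1) : ℕ) : ℝ) ≤ (((wbox (D + 1) H).card : ℕ) : ℝ) := by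
        exact_mod_cast h1
      push_cast at h2
      simpa using h2
    exact key (3 * e) (by omega)
  have hVc : (V.card : ℝ) ≤ K * ((3 * e + 1) * (H : ℝ) ^ (3 * e)) ^ γ := by
    apply hcount
    · have h1 : (1 : ℝ) ≤ (H : ℝ) ^ (3 * e) := one_le_pow₀ hHr
      nlinarith
    · intro y hy
      rw [hV, mem_filter, mem_Icc, ← abs_le] at hy
      refine ⟨?_, hy.2⟩
      have h1 : ((|y| : ℤ) : ℝ) ≤ ((M : ℤ) : ℝ) := by exact_mod_cast hy.1
      rw [hM] at h1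
      push_cast at h1
      exact h1
  have hIcc : ((Icc (-(H : ℤ)) H).card : ℝ) = 2 * H + 1 := by
    rw [Int.card_Icc]
    have : ((H : ℤ) + 1 - -(H : ℤ)).toNat = 2 * H + 1 := by omega
    rw [this]
    push_cast
    ring
  have h1 : (((V.biUnion (fun v => (Icc (-(H : ℤ)) H).biUnion (fun n => (wbox (3 * e) H).filter
      (fun a => mv a n = v)))).card : ℕ) : ℝ) ≤ V.card * ((2 * H + 1) * Q) := by
    have h2 : (((V.biUnion (fun v => (Icc (-(H : ℤ)) H).biUnion (fun n => (wbox (3 * e) H).filter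
      (fun a => mv a n = v)))).card : ℕ) : ℝ) ≤ ∑ v ∈ V, (((Icc (-(H : ℤ)) H).biUnion (fun n =>
      (wbox (3 * e) H).filter (fun a => mv a n = v))).card : ℝ) := by
      exact_mod_cast Finset.card_biUnion_le
    refine h2.trans ?_
    refine (Finset.sum_le_card_nsmul V _ ((2 * H + 1) * Q) ?_).trans (le_of_eq (nsmul_eq_mul _ _))
    intro v _
    have h3 : (((Icc (-(H : ℤ)) H).biUnion (fun n => (wbox (3 * e) H).filter (fun a => mv a n = v))).card : ℝ) ≤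
        ∑ n ∈ Icc (-(H : ℤ)) H, (((wbox (3 * e) H).filter (fun a => mv a n = v)).card : ℝ) := by
      exact_mod_cast Finset.card_biUnion_le
    refine h3.trans ((Finset.sum_le_card_nsmul _ _ Q (fun n _ => hfib v n)).trans ?_)
    rw [nsmul_eq_mul, hIcc]
  refine (show _ ≤ _ by exact_mod_cast Finset.card_le_card hsub).trans (h1.trans ?_)
  have g2 : ((3 * (e : ℝ) + 1) * (H : ℝ) ^ (3 * e)) ^ γ = (3 * (e : ℝ) + 1) ^ γ * (H : ℝ) ^ (3 * (e : ℝ) * γ) := by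
    rw [Real.mul_rpow (by positivity) (by positivity)]
    congr 1
    rw [← Real.rpow_natCast (H : ℝ) (3 * e), ← Real.rpow_mul hH0.le]
    congr 1
    push_cast
    ring
  have g4 : (H : ℝ) ^ (3 * (e : ℝ) * γ) * (H * ((H : ℝ) ^ (3 * e))⁻¹) = (H : ℝ) ^ (3 * (e : ℝ) * γ - (3 * e - 1)) := by
    have h5 : (H : ℝ) * ((H : ℝ) ^ (3 * e))⁻¹ = ((H : ℝ) ^ (3 * e - 1))⁻¹ := by
      have h6 : (H : ℝ) ^ (3 * e) = (H : ℝ) ^ (3 * e - 1) * H := by
        rw [← pow_succ]; congr 1; omega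
      rw [h6]
      field_simp
    rw [h5, Real.rpow_sub hH0, div_eq_mul_inv]
    congr 2
    rw [← Real.rpow_natCast, Nat.cast_sub (by omega)]
    push_cast
    rfl
  have g5 : (2 * (H : ℝ) + 1) * (2 * (H : ℝ) ^ (3 * e) + 1)⁻¹ ≤ 3 * (H * ((H : ℝ) ^ (3 * e))⁻¹) := by
    have h6 : (2 * (H : ℝ) ^ (3 * e) + 1)⁻¹ ≤ ((H : ℝ) ^ (3 * e))⁻¹ := by
      rw [inv_le_inv₀ (by positivity) (by positivity)]
      have : 0 < (H : ℝ) ^ (3 * e) := by positivity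
      linarith
    calc (2 * (H : ℝ) + 1) * (2 * (H : ℝ) ^ (3 * e) + 1)⁻¹ ≤ (3 * H) * ((H : ℝ) ^ (3 * e))⁻¹ := by
          gcongr
          linarith
      _ = _ := by ring
  calc (V.card : ℝ) * ((2 * H + 1) * Q)
      ≤ (K * ((3 * e + 1) * (H : ℝ) ^ (3 * e)) ^ γ) * ((2 * H + 1) * Q) := by gcongr
    _ = T * (K * (3 * (e : ℝ) + 1) ^ γ * (H : ℝ) ^ (3 * (e : ℝ) * γ) *
        ((2 * (H : ℝ) + 1) * (2 * (H : ℝ) ^ (3 * e) + 1)⁻¹)) := by
        rw [g2, hQ]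
        ring
    _ ≤ T * (K * (3 * (e : ℝ) + 1) ^ γ * (H : ℝ) ^ (3 * (e : ℝ) * γ) * (3 * (H * ((H : ℝ) ^ (3 * e))⁻¹))) := by
        gcongr
    _ = T * (3 * K * (3 * (e : ℝ) + 1) ^ γ * ((H : ℝ) ^ (3 * (e : ℝ) * γ) * (H * ((H : ℝ) ^ (3 * e))⁻¹))) := by ring
    _ = _ := by rw [g4]

end T9h23.Ru
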