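import Pool.Agent.T9h23.Ru.R8

/-! # Almost all monic polynomials of degree `3 e`: no exceptional value -/

set_option autoImplicit false

namespace T9h23.Ru

open Finset Filter Topology T9h23.Op
open scoped Classical

theorem ev_rpow (C a b : ℝ) (hab : a < b) : ∀ᶠ H : ℕ in atTop, C * (H : ℝ) ^ a ≤ (H : ℝ) ^ b := by
  have h1 : (fun x : ℝ => C * x ^ a) =o[atTop] (fun x : ℝ => x ^ b) := by
    apply Asymptotics.IsLittleO.const_mul_left
    have h0 : (fun _ : ℝ => (1 : ℝ)) =o[atTop] (fun x : ℝ => x ^ (b - a)) :=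
      Asymptotics.isLittleO_const_left.2 (Or.inr (by
        have := tendsto_rpow_atTop (show 0 < b - a by linarith)
        exact tendsto_norm_atTop_atTop.comp this))
    have h2 := (Asymptotics.isBigO_refl (fun x : ℝ => x ^ a) atTop).mul_isLittleO h0
    refine h2.congr' ?_ ?_
    · exact Eventually.of_forall fun x => mul_one _
    · filter_upwards [eventually_gt_atTop (0 : ℝ)] with x hx
      rw [← Real.rpow_add hx]
      congr 1
      ring
  have h2 := tendsto_natCast_atTop_atTop.eventually ((h1.def one_pos).and (eventually_ge_atTop (1 : ℝ)))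
  filter_upwards [h2] with H hH
  obtain ⟨g1, g2⟩ := hH
  rw [one_mul, Real.norm_eq_abs, Real.norm_eq_abs, abs_of_nonneg (show (0 : ℝ) ≤ (H : ℝ) ^ b by positivity)] at g1
  exact (le_abs_self _).trans g1

theorem ev_rpow_log (C D a b : ℝ) (hab : a < b) :
    ∀ᶠ H : ℕ in atTop, C * (H : ℝ) ^ a * (8 + D * Real.log H) ≤ (H : ℝ) ^ b := by
  have hc : a < (a + b) / 2 := by linarith
  have hd : (a + b) / 2 < b := by linarith
  have hl : (fun x : ℝ => 8 + D * Real.log x) =o[atTop] (fun x : ℝ => x ^ ((b - a) / 2)) := by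
    have h2 : (fun x : ℝ => D * Real.log x) =o[atTop] (fun x : ℝ => x ^ ((b - a) / 2)) :=
      (isLittleO_log_rpow_atTop (by linarith)).const_mul_left D
    have h3 : (fun _ : ℝ => (8 : ℝ)) =o[atTop] (fun x : ℝ => x ^ ((b - a) / 2)) :=
      Asymptotics.isLittleO_const_left.2 (Or.inr (by
        have := tendsto_rpow_atTop (show 0 < (b - a) / 2 by linarith)
        exact tendsto_norm_atTop_atTop.comp this))
    exact h3.add h2
  have h2 := tendsto_natCast_atTop_atTop.eventually ((hl.def one_pos).and (eventually_ge_atTop (1 : ℝ)))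
  filter_upwards [h2, ev_rpow |C| ((a + b) / 2) b hd] with H hH hH2
  obtain ⟨g1, g2⟩ := hH
  have hH0 : (0 : ℝ) < H := by linarith
  rw [one_mul, Real.norm_eq_abs, Real.norm_eq_abs,
    abs_of_nonneg (show (0 : ℝ) ≤ (H : ℝ) ^ ((b - a) / 2) by positivity)] at g1
  calc C * (H : ℝ) ^ a * (8 + D * Real.log H) ≤ |C * (H : ℝ) ^ a * (8 + D * Real.log H)| := le_abs_self _
    _ = |C| * (H : ℝ) ^ a * |8 + D * Real.log H| := by
        rw [abs_mul, abs_mul, abs_of_nonneg (show (0 : ℝ) ≤ (H : ℝ) ^ a by positivity)]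
    _ ≤ |C| * (H : ℝ) ^ a * (H : ℝ) ^ ((b - a) / 2) := by gcongr
    _ = |C| * (H : ℝ) ^ ((a + b) / 2) := by
        rw [mul_assoc, ← Real.rpow_add hH0]
        congr 2
        ring
    _ ≤ _ := hH2

theorem dyadic (H : ℕ) (hH : 1 ≤ H) (n : ℤ) (hn : (H : ℤ) < |n|) : ∃ j : ℕ, ((2 ^ j * H : ℕ) : ℤ) ≤ |n| ∧
    |n| ≤ 2 * ((2 ^ j * H : ℕ) : ℤ) ∧ 2 ^ j ≤ n.natAbs := by
  have hm : (n.natAbs : ℤ) = |n| := Int.natCast_natAbs n
  have hq : 1 ≤ n.natAbs / H := by
    rw [Nat.le_div_iff_mul_le (by omega)]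
    omega
  refine ⟨Nat.log 2 (n.natAbs / H), ?_, ?_, ?_⟩
  · have h1 := Nat.pow_log_le_self 2 (by omega : n.natAbs / H ≠ 0)
    have h2 : 2 ^ Nat.log 2 (n.natAbs / H) * H ≤ n.natAbs :=
      (Nat.mul_le_mul_right H h1).trans (Nat.div_mul_le_self _ _)
    omega
  · have h1 := Nat.lt_pow_succ_log_self (b := 2) (by norm_num) (n.natAbs / H)
    have h2 : n.natAbs < (n.natAbs / H + 1) * H := by
      have := Nat.div_add_mod n.natAbs H
      have h3 := Nat.mod_lt n.natAbs (show 0 < H by omega)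
      nlinarith
    have h3 : (n.natAbs / H + 1) * H ≤ 2 ^ (Nat.log 2 (n.natAbs / H) + 1) * H := Nat.mul_le_mul_right H h1
    rw [pow_succ] at h3
    have h4 : n.natAbs ≤ 2 * (2 ^ Nat.log 2 (n.natAbs / H) * H) := by nlinarith
    omega
  · exact (Nat.pow_log_le_self 2 (by omega : n.natAbs / H ≠ 0)).trans (Nat.div_le_self _ _)

theorem final (e : ℕ) (he : 2 ≤ e) (ε : ℝ) (hε : 0 < ε) : ∃ H₀ : ℕ, ∀ H : ℕ, H₀ ≤ H →
    (((wbox (3 * e) H).filter (fun a => ∃ n : ℤ, Bad (mv a n))).card : ℝ) ≤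
      (wbox (3 * e) H).card * (H : ℝ) ^ (ε - (4 * (e : ℝ) / 3 - 1)) := by
  have he2 : (2 : ℝ) ≤ e := by exact_mod_cast he
  set η : ℝ := min ε (1 / 10) with hη
  have hη0 : 0 < η := lt_min hε (by norm_num)
  have hη1 : η ≤ 1 / 10 := min_le_right _ _
  set γ : ℝ := 5 / 9 + η / (6 * e) with hγ
  have hγe : 3 * (e : ℝ) * γ = 5 * (e : ℝ) / 3 + η / 2 := by
    rw [hγ]; field_simp; ring
  have hγ1 : 5 / 9 < γ := by
    rw [hγ]
    have : 0 < η / (6 * e) := by positivity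
    linarith
  obtain ⟨K, hK1, hcount⟩ := countE γ hγ1
  obtain ⟨C₀, C₁, hC₀, hC₁, hlarge⟩ := large e (by omega)
  set CA : ℝ := 3 * K * (3 * e + 1) ^ γ with hCA
  set CB : ℝ := K * ((3 * e + 1) * 2 ^ (3 * e)) ^ γ * (6 * e + 2) * 2 ^ (3 * e) with hCB
  have hCA0 : 0 < CA := by positivity
  have hCB0 : 0 < CB := by positivity
  set b : ℝ := 3 * (e : ℝ) * γ - (3 * e - 1) with hb
  have hb2 : b = η / 2 - (4 * (e : ℝ) / 3 - 1) := by rw [hb, hγe]; ring
  have hev := ((ev_rpow_log (2 * C₀ + CA + CB) (2 * (2 * e + 2)) b (η - (4 * (e : ℝ) / 3 - 1))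
    (by rw [hb2]; linarith)).and (ev_rpow C₁ (2 * (e : ℝ) + 1) (2 * (e : ℝ) + 11 / 10) (by linarith))).and
    (eventually_ge_atTop (max 1 ⌈C₁⌉₊))
  obtain ⟨H₀, hH₀⟩ := eventually_atTop.1 hev
  refine ⟨H₀, ?_⟩
  intro H hH
  obtain ⟨⟨k1, k2⟩, k3⟩ := hH₀ H hH
  have hH1 : 1 ≤ H := le_trans (le_max_left _ _) k3
  have hHC : C₁ ≤ H := (Nat.le_ceil C₁).trans (by exact_mod_cast le_trans (le_max_right _ _) k3)
  have hHr : (1 : ℝ) ≤ H := by exact_mod_cast hH1
  have hHpos : (0 : ℝ) < H := by linarith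
  have hpow : (H : ℝ) ^ (2 * (e : ℝ) + 1) = (H : ℝ) ^ (2 * e + 1) := by
    rw [← Real.rpow_natCast]; push_cast; rfl
  rw [hpow] at k2
  set T : ℝ := ((wbox (3 * e) H).card : ℝ) with hT
  have hT0 : 0 ≤ T := by positivity
  set J : ℕ := Nat.log 2 (H ^ (2 * e + 2)) + 1 with hJ
  set τ : ℝ := 2 * (e : ℝ) + 11 / 10 with hτ
  set S0 := (wbox (3 * e) H).filter (fun a => |(lead e a : ℝ)| < C₀ * H) with hS0
  set S1 := (wbox (3 * e) H).filter (fun a => ∃ n : ℤ, |n| ≤ H ∧ Bad (mv a n)) with hS1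
  set S2 : ℕ → Finset (Fin (3 * e) → ℤ) := fun j => (wbox (3 * e) H).filter
    (fun a => ∃ n : ℤ, ((2 ^ j * H : ℕ) : ℤ) ≤ |n| ∧ |n| ≤ 2 * ((2 ^ j * H : ℕ) : ℤ) ∧ Bad (mv a n)) with hS2
  set R := (range J).filter (fun j => ((2 ^ j * H : ℕ) : ℝ) ≤ (H : ℝ) ^ τ) with hR
  have hsub : (wbox (3 * e) H).filter (fun a => ∃ n : ℤ, Bad (mv a n)) ⊆ S0 ∪ (S1 ∪ R.biUnion S2) := by
    intro a ha
    rw [mem_filter] at ha
    obtain ⟨ha1, n, hbad⟩ := ha
    rw [mem_union, mem_union]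
    by_cases c0 : |(lead e a : ℝ)| < C₀ * H
    · left
      rw [hS0, mem_filter]
      exact ⟨ha1, c0⟩
    push Not at c0
    right
    by_cases c1 : |n| ≤ H
    · left
      rw [hS1, mem_filter]
      exact ⟨ha1, n, c1, hbad⟩
    push Not at c1
    right
    by_cases c2 : C₁ * (H : ℝ) ^ (2 * e + 1) ≤ |(n : ℝ)|
    · exfalso
      obtain ⟨x, hx1, hx2⟩ := hbad
      have := hlarge H hH1 a (mem_wbox.1 ha1) c0 n c2 x
      linarith
    push Not at c2
    obtain ⟨j, hj1, hj2, hj3⟩ := dyadic H hH1 n c1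
    have hnabs : ((n.natAbs : ℕ) : ℝ) = |(n : ℝ)| := by rw [Nat.cast_natAbs, Int.cast_abs]
    rw [mem_biUnion]
    refine ⟨j, ?_, ?_⟩
    · rw [hR, mem_filter, mem_range]
      constructor
      · rw [hJ, Nat.lt_succ_iff]
        apply Nat.le_log_of_pow_le (by norm_num)
        have h1 : ((n.natAbs : ℕ) : ℝ) ≤ ((H ^ (2 * e + 2) : ℕ) : ℝ) := by
          rw [hnabs]
          push_cast
          calc |(n : ℝ)| ≤ C₁ * (H : ℝ) ^ (2 * e + 1) := c2.le
            _ ≤ H * (H : ℝ) ^ (2 * e + 1) := by gcongr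
            _ = (H : ℝ) ^ (2 * e + 2) := by rw [← pow_succ']
        exact hj3.trans (by exact_mod_cast h1)
      · have h1 : (((2 ^ j * H : ℕ) : ℤ) : ℝ) ≤ ((|n| : ℤ) : ℝ) := by exact_mod_cast hj1
        rw [Int.cast_natCast, Int.cast_abs] at h1
        exact h1.trans (c2.le.trans k2)
    · rw [hS2]
      dsimp only
      rw [mem_filter]
      exact ⟨ha1, n, hj1, hj2, hbad⟩
  have b0 : (S0.card : ℝ) ≤ T * (2 * C₀ * (H : ℝ) ^ b) := by
    have h1 := few e (by omega) H (C₀ * H) (by positivity)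
    have h2 : (0 : ℝ) < (H : ℝ) ^ (2 * e + 1) := by positivity
    have h3 : (S0.card : ℝ) * (2 * (H : ℝ) ^ (2 * e + 1)) ≤ (4 * C₀ * H) * T := by
      calc (S0.card : ℝ) * (2 * (H : ℝ) ^ (2 * e + 1)) ≤ (S0.card : ℝ) * (2 * (H : ℝ) ^ (2 * e + 1) + 1) := by
            gcongr
            linarith
        _ ≤ (3 * (C₀ * H) + 1) * T := h1
        _ ≤ (4 * C₀ * H) * T := by
            gcongr
            nlinarith
    have h4 : (H : ℝ) * ((H : ℝ) ^ (2 * e + 1))⁻¹ ≤ (H : ℝ) ^ b := by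
      have h5 : (H : ℝ) * ((H : ℝ) ^ (2 * e + 1))⁻¹ = (H : ℝ) ^ (-(2 * (e : ℝ))) := by
        rw [pow_succ, mul_inv, Real.rpow_neg hHpos.le]
        have h6 : (H : ℝ) ^ (2 * (e : ℝ)) = (H : ℝ) ^ (2 * e) := by
          rw [← Real.rpow_natCast]; push_cast; rfl
        rw [h6]
        field_simp
      rw [h5]
      apply Real.rpow_le_rpow_of_exponent_le hHr
      rw [hb2]
      linarith
    calc (S0.card : ℝ) = (S0.card : ℝ) * (2 * (H : ℝ) ^ (2 * e + 1)) * (2 * (H : ℝ) ^ (2 * e + 1))⁻¹ := by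
          field_simp
      _ ≤ (4 * C₀ * H) * T * (2 * (H : ℝ) ^ (2 * e + 1))⁻¹ := by gcongr
      _ = T * (2 * C₀ * (H * ((H : ℝ) ^ (2 * e + 1))⁻¹)) := by
          rw [mul_inv]; ring
      _ ≤ _ := by gcongr
  have b1 : (S1.card : ℝ) ≤ T * (CA * (H : ℝ) ^ b) := small e he K γ (by linarith) (by linarith) hcount H hH1
  have b2 : ∀ j ∈ R, ((S2 j).card : ℝ) ≤ T * (CB * (H : ℝ) ^ b) := by
    intro j hj
    rw [hR, mem_filter] at hj
    have h1 : H ≤ 2 ^ j * H := Nat.le_mul_of_pos_left H (by positivity)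
    exact block e he K γ (by linarith) (by linarith) (by rw [hγe]; linarith) hcount H (2 ^ j * H) hH1 h1 hj.2
  have b3 : ((R.biUnion S2).card : ℝ) ≤ (1 + 2 * (2 * e + 2) * Real.log H) * (T * (CB * (H : ℝ) ^ b)) := by
    have h1 : ((R.biUnion S2).card : ℝ) ≤ ∑ j ∈ R, ((S2 j).card : ℝ) := by exact_mod_cast Finset.card_biUnion_le
    refine h1.trans ((Finset.sum_le_card_nsmul _ _ _ b2).trans ?_)
    rw [nsmul_eq_mul]
    have h2 : (R.card : ℝ) ≤ 1 + 2 * (2 * e + 2) * Real.log H := by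
      have h3 : R.card ≤ J := by
        calc R.card ≤ (range J).card := Finset.card_filter_le _ _
          _ = J := card_range J
      have h4 : (J : ℝ) ≤ 1 + 2 * (2 * e + 2) * Real.log H := by
        have h5 := Nat.pow_log_le_self 2 (show H ^ (2 * e + 2) ≠ 0 by positivity)
        have h6 : ((2 : ℝ) ^ Nat.log 2 (H ^ (2 * e + 2))) ≤ (H : ℝ) ^ (2 * e + 2) := by exact_mod_cast h5
        have h7 := Real.log_le_log (by positivity) h6
        rw [Real.log_pow, Real.log_pow] at h7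
        have h8 : (1 : ℝ) / 2 ≤ Real.log 2 := by
          have := Real.log_two_gt_d9
          linarith
        rw [hJ]
        push_cast at h7 ⊢
        have h9 : (0 : ℝ) ≤ (Nat.log 2 (H ^ (2 * e + 2)) : ℝ) := by positivity
        nlinarith
      exact (by exact_mod_cast h3 : (R.card : ℝ) ≤ J).trans h4
    gcongr
  have hfin := (Finset.card_le_card hsub).trans ((Finset.card_union_le _ _).trans
    (Nat.add_le_add_left (Finset.card_union_le _ _) _))
  have hfin' : (((wbox (3 * e) H).filter (fun a => ∃ n : ℤ, Bad (mv a n))).card : ℝ) ≤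
      (S0.card : ℝ) + ((S1.card : ℝ) + ((R.biUnion S2).card : ℝ)) := by
    exact_mod_cast hfin
  have hlog : 0 ≤ Real.log H := Real.log_nonneg hHr
  have hHb : 0 ≤ (H : ℝ) ^ b := by positivity
  have hlast : (H : ℝ) ^ (η - (4 * (e : ℝ) / 3 - 1)) ≤ (H : ℝ) ^ (ε - (4 * (e : ℝ) / 3 - 1)) := by
    apply Real.rpow_le_rpow_of_exponent_le hHr
    have := min_le_left ε (1 / 10 : ℝ)
    linarith
  refine hfin'.trans (le_trans ?_ (mul_le_mul_of_nonneg_left (k1.trans hlast) hT0))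
  have h1 : (S0.card : ℝ) + ((S1.card : ℝ) + ((R.biUnion S2).card : ℝ)) ≤ T * ((2 * C₀ + CA +
      CB * (1 + 2 * (2 * e + 2) * Real.log H)) * (H : ℝ) ^ b) := by
    calc _ ≤ T * (2 * C₀ * (H : ℝ) ^ b) + (T * (CA * (H : ℝ) ^ b) +
          (1 + 2 * (2 * e + 2) * Real.log H) * (T * (CB * (H : ℝ) ^ b))) := by gcongr
      _ = _ := by ring
  refine h1.trans (mul_le_mul_of_nonneg_left ?_ hT0)
  have h2 : (2 * C₀ + CA + CB * (1 + 2 * (2 * e + 2) * Real.log H)) ≤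
      (2 * C₀ + CA + CB) * (8 + 2 * (2 * e + 2) * Real.log H) := by
    have h3 : 0 ≤ (2 * C₀ + CA) * (7 + 2 * (2 * e + 2) * Real.log H) := by positivity
    nlinarith
  calc (2 * C₀ + CA + CB * (1 + 2 * (2 * e + 2) * Real.log H)) * (H : ℝ) ^ b
      ≤ ((2 * C₀ + CA + CB) * (8 + 2 * (2 * e + 2) * Real.log H)) * (H : ℝ) ^ b := by gcongr
    _ = _ := by ring

end T9h23.Ru
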