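import Pool.Agent.T9h23.Ru.R4
import Pool.Agent.T9h23.Op.A2

/-! # Polynomials of a weighted box with a given value -/

set_option autoImplicit false

namespace T9h23.Ru

open Finset T9h23.Op
open scoped Classical

theorem mv_ev {d : ℕ} (a : Fin d → ℤ) (n : ℤ) : mv a n = n ^ d + ev a n := rfl

/-- nonzero argument: base `n` expansions -/
theorem cntw (n : ℤ) (hn : n ≠ 0) : ∀ (d : ℕ) (B : Fin (d + 1) → ℕ) (v : ℤ),
    (((gbox B).filter (fun a => ev a n = v)).card : ℝ) ≤
      ∏ i : Fin d, ((2 * (B i.castSucc : ℝ) + 1) / |(n : ℝ)| + 1) := by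
  intro d
  induction d with
  | zero =>
    intro B v
    rw [Finset.univ_eq_empty, Finset.prod_empty]
    have : ((gbox B).filter (fun a => ev a n = v)).card ≤ 1 := by
      rw [Finset.card_le_one]
      intro a ha b hb
      rw [mem_filter, ev_succ] at ha hb
      have ha2 := ha.2
      have hb2 := hb.2
      simp only [ev, Finset.univ_eq_empty, Finset.sum_empty, mul_zero, add_zero] at ha2 hb2
      funext i
      rw [Fin.fin_one_eq_zero i, ha2, hb2]
    exact_mod_cast this
  | succ d ih =>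
    intro B v
    set s := (gbox B).filter (fun a => ev a n = v) with hs
    set T := (Icc (-(B 0 : ℤ)) (B 0)).filter (fun t => |n| ∣ t - v) with hT
    have hmaps : ∀ a ∈ s, a 0 ∈ T := by
      intro a ha
      rw [hs, mem_filter, mem_gbox] at ha
      rw [hT, mem_filter, mem_Icc, ← abs_le]
      refine ⟨ha.1 0, ?_⟩
      rw [abs_dvd]
      refine ⟨-ev (Fin.tail a) n, ?_⟩
      have := ev_succ a n
      rw [ha.2] at this
      linarith
    have hcard := Finset.card_eq_sum_card_fiberwise (f := fun a : Fin (d + 1 + 1) → ℤ => a 0) (s := s) (t := T)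
      (fun a ha => hmaps a ha)
    have hn0 : (0 : ℝ) < |(n : ℝ)| := by
      rw [abs_pos]; exact_mod_cast hn
    set B' : Fin (d + 1) → ℕ := fun i => B i.succ with hB'
    have hfib : ∀ t ∈ T, ((s.filter (fun a => a 0 = t)).card : ℝ) ≤
        ∏ i : Fin d, ((2 * (B' i.castSucc : ℝ) + 1) / |(n : ℝ)| + 1) := by
      intro t _
      refine le_trans ?_ (ih B' ((v - t) / n))
      have : (s.filter (fun a => a 0 = t)).card ≤
          ((gbox B').filter (fun a => ev a n = (v - t) / n)).card := by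
        refine Finset.card_le_card_of_injOn Fin.tail ?_ ?_
        · intro a ha
          rw [Finset.mem_coe, mem_filter, hs, mem_filter, mem_gbox] at ha
          obtain ⟨⟨h1, h2⟩, h3⟩ := ha
          rw [Finset.mem_coe, mem_filter, mem_gbox]
          refine ⟨fun i => h1 i.succ, ?_⟩
          have h4 := ev_succ a n
          rw [h2, h3] at h4
          have h5 : v - t = n * ev (Fin.tail a) n := by linarith
          rw [h5, Int.mul_ediv_cancel_left _ hn]
        · intro a ha b hb hab
          rw [Finset.mem_coe, mem_filter] at ha hb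
          rw [← Fin.cons_self_tail a, ← Fin.cons_self_tail b, hab, ha.2, hb.2]
      exact_mod_cast this
    have hTc : (T.card : ℝ) ≤ (2 * B 0 + 1) / |(n : ℝ)| + 1 := by
      have := res_card (B 0) |n| v (abs_pos.2 hn)
      rw [Int.cast_abs] at this
      exact this
    have hP : 0 ≤ ∏ i : Fin d, ((2 * (B' i.castSucc : ℝ) + 1) / |(n : ℝ)| + 1) :=
      Finset.prod_nonneg fun i _ => by positivity
    calc (s.card : ℝ) = ∑ t ∈ T, ((s.filter (fun a => a 0 = t)).card : ℝ) := by
          rw [hcard]; push_cast; rfl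
      _ ≤ T.card • ∏ i : Fin d, ((2 * (B' i.castSucc : ℝ) + 1) / |(n : ℝ)| + 1) :=
          Finset.sum_le_card_nsmul _ _ _ hfib
      _ ≤ ((2 * B 0 + 1) / |(n : ℝ)| + 1) * ∏ i : Fin d, ((2 * (B' i.castSucc : ℝ) + 1) / |(n : ℝ)| + 1) := by
          rw [nsmul_eq_mul]; gcongr
      _ = _ := by
          rw [Fin.prod_univ_succ]
          rfl

/-- all arguments: the constant coefficient is determined -/
theorem cnt0 (n v : ℤ) (d : ℕ) (B : Fin (d + 1) → ℕ) :
    ((gbox B).filter (fun a => ev a n = v)).card * (2 * B 0 + 1) ≤ (gbox B).card := by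
  have h := fibre B ((gbox B).filter (fun a => ev a n = v)) (Finset.filter_subset _ _) 0 1 (by
    intro a _
    rw [Finset.card_le_one]
    intro b hb c hc
    rw [mem_filter, mem_filter] at hb hc
    have htail : Fin.tail b = Fin.tail c := by
      funext i
      unfold Fin.tail
      rw [hb.2 _ (Fin.succ_ne_zero i), hc.2 _ (Fin.succ_ne_zero i)]
    have h1 := hb.1.2
    have h2 := hc.1.2
    rw [ev_succ, htail] at h1
    rw [ev_succ] at h2
    have h3 : b 0 = c 0 := by linarith
    rw [← Fin.cons_self_tail b, ← Fin.cons_self_tail c, htail, h3])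
  rwa [one_mul] at h

/-- the size of the values -/
theorem ev_le {d H : ℕ} (a : Fin d → ℤ) (ha : InBox H a) (n M : ℤ) (hn : |n| ≤ M) (hM : (H : ℤ) ≤ M) :
    |ev a n| ≤ d * H * M ^ (d - 1) := by
  unfold ev
  refine (Finset.abs_sum_le_sum_abs _ _).trans ?_
  have hM0 : 0 ≤ M := le_trans (abs_nonneg _) hn
  have h1 : ∀ i ∈ (univ : Finset (Fin d)), |a i * n ^ (i : ℕ)| ≤ H * M ^ (d - 1) := by
    intro i _
    rw [abs_mul, abs_pow]
    have h2 := ha i
    have hi := i.isLt
    calc |a i| * |n| ^ (i : ℕ) ≤ (H : ℤ) ^ (d - (i : ℕ)) * M ^ (i : ℕ) := by gcongr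
      _ = H * ((H : ℤ) ^ (d - (i : ℕ) - 1) * M ^ (i : ℕ)) := by
          rw [← mul_assoc, ← pow_succ']
          congr 2
          omega
      _ ≤ H * (M ^ (d - (i : ℕ) - 1) * M ^ (i : ℕ)) := by gcongr
      _ = H * M ^ (d - 1) := by
          rw [← pow_add]
          congr 2
          omega
  refine (Finset.sum_le_card_nsmul _ _ _ h1).trans ?_
  rw [card_univ, Fintype.card_fin, nsmul_eq_mul, mul_assoc]

/-- sets of small diameter -/
theorem card_diam (s : Finset ℤ) (D : ℕ) (h : ∀ x ∈ s, ∀ y ∈ s, x < y → y - x ≤ D) : s.card ≤ D + 1 := by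
  rcases s.eq_empty_or_nonempty with h0 | h0
  · rw [h0, card_empty]; omega
  · have h1 : s ⊆ Icc (s.min' h0) (s.min' h0 + D) := by
      intro t ht
      rw [mem_Icc]
      have h2 := s.min'_le t ht
      refine ⟨h2, ?_⟩
      rcases h2.eq_or_lt with h3 | h3
      · rw [← h3]; omega
      · have := h _ (s.min'_mem h0) t ht h3
        omega
    have h2 := Finset.card_le_card h1
    rw [Int.card_Icc] at h2
    omega

/-- few positive arguments -/
theorem few_pos (d D : ℕ) (hd : 1 ≤ d) (v : ℤ) (S : Finset ℤ)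
    (hS : ∀ n ∈ S, 1 ≤ n ∧ |v - n ^ d| ≤ D * n ^ (d - 1)) : S.card ≤ 2 * D + 1 := by
  apply card_diam
  intro x hx y hy hxy
  obtain ⟨x1, x2⟩ := hS x hx
  obtain ⟨y1, y2⟩ := hS y hy
  have hpow : x ^ (d - 1) ≤ y ^ (d - 1) := pow_le_pow_left₀ (by linarith) hxy.le _
  have hy0 : 0 < y ^ (d - 1) := pow_pos (by linarith) _
  have e1 : y ^ d = y ^ (d - 1) * y := by rw [← pow_succ]; congr 1; omega
  have e2 : x ^ d = x ^ (d - 1) * x := by rw [← pow_succ]; congr 1; omega
  have h1 : (y - x) * y ^ (d - 1) ≤ y ^ d - x ^ d := by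
    rw [e1, e2]
    nlinarith
  have h2 : y ^ d - x ^ d ≤ 2 * D * y ^ (d - 1) := by
    rw [abs_le] at x2 y2
    have h3 : (D : ℤ) * x ^ (d - 1) ≤ D * y ^ (d - 1) := by gcongr
    linarith [x2.1, x2.2, y2.1, y2.2]
  have h3 : (y - x) * y ^ (d - 1) ≤ (2 * D) * y ^ (d - 1) := by linarith
  have h4 := le_of_mul_le_mul_right h3 hy0
  push_cast
  exact h4

/-- few arguments with a given value -/
theorem few_n (d D : ℕ) (hd : 1 ≤ d) (v : ℤ) (S : Finset ℤ)
    (hS : ∀ n ∈ S, n ≠ 0 ∧ |v - n ^ d| ≤ D * |n| ^ (d - 1)) : S.card ≤ 4 * D + 2 := by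
  have h1 := few_pos d D hd v (S.filter (fun n => 0 < n)) (by
    intro n hn
    rw [mem_filter] at hn
    have h2 := hS n hn.1
    rw [abs_of_pos hn.2] at h2
    exact ⟨hn.2, h2.2⟩)
  have h2 := few_pos d D hd ((-1) ^ d * v) ((S.filter (fun n => ¬ 0 < n)).image (fun n => -n)) (by
    intro m hm
    rw [mem_image] at hm
    obtain ⟨n, hn, rfl⟩ := hm
    rw [mem_filter] at hn
    obtain ⟨h3, h4⟩ := hS n hn.1
    have h5 : n < 0 := by
      have := hn.2
      omega
    refine ⟨by omega, ?_⟩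
    rw [abs_of_neg h5] at h4
    have h6 : (-1) ^ d * v - (-n) ^ d = (-1) ^ d * (v - n ^ d) := by
      rw [neg_pow n]; ring
    rw [h6, abs_mul, abs_pow, abs_neg, abs_one, one_pow, one_mul]
    exact h4)
  rw [Finset.card_image_of_injective _ neg_injective] at h2
  have h3 := Finset.card_filter_add_card_filter_not (s := S) (fun n => 0 < n)
  omega

end T9h23.Ru
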