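import Mathlib

/-! # Taylor polynomials of `(1 + u) ^ r`, `r` rational, at integral polynomials without constant term -/

set_option autoImplicit false

namespace T9h23.Ru

open Finset Polynomial

/-- the binomial coefficient `(r over j)` -/
noncomputable def bc (r : ℚ) (j : ℕ) : ℚ := Ring.choose r j

theorem bc_one (r : ℚ) : bc r 1 = r := by
  unfold bc
  rw [Ring.choose_one_right]

/-- Taylor's formula for `(1 + u) ^ r` -/
theorem taylor (r : ℚ) (J : ℕ) : ∃ C : ℝ, 0 < C ∧ ∀ u : ℝ, |u| ≤ 1 / 2 →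
    |(1 + u) ^ (r : ℝ) - ∑ j ∈ range J, ((bc r j : ℚ) : ℝ) * u ^ j| ≤ C * |u| ^ J := by
  have h1 := Real.one_add_rpow_hasFPowerSeriesOnBall_zero (a := (r : ℝ))
  obtain ⟨a, ha, C, hC, h2⟩ := h1.uniform_geometric_approx' (r' := (3 / 4 : NNReal))
    (by rw [← ENNReal.coe_one, ENNReal.coe_lt_coe]; rw [div_lt_one (by norm_num)]; norm_num)
  refine ⟨C * (4 / 3) ^ J, by positivity, ?_⟩
  intro u hu
  have hub : u ∈ Metric.ball (0 : ℝ) ((3 / 4 : NNReal) : ℝ) := by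
    rw [mem_ball_zero_iff, Real.norm_eq_abs]
    push_cast
    linarith
  have h3 := h2 u hub J
  rw [zero_add, Real.norm_eq_abs, Real.norm_eq_abs] at h3
  have e : (binomialSeries ℝ (r : ℝ)).partialSum J u = ∑ j ∈ range J, ((bc r j : ℚ) : ℝ) * u ^ j := by
    unfold FormalMultilinearSeries.partialSum
    refine Finset.sum_congr rfl fun j _ => ?_
    rw [binomialSeries_apply, List.ofFn_const, List.prod_replicate, smul_eq_mul]
    congr 1
    unfold bc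
    exact (Ring.map_choose (algebraMap ℚ ℝ) r j).symm
  rw [e] at h3
  refine h3.trans ?_
  push_cast
  rw [mul_assoc, ← mul_pow]
  have ha1 : a ≤ 1 := ha.2.le
  have ha0 : 0 ≤ a := ha.1.le
  have h5 : 0 ≤ |u| / (3 / 4) := by positivity
  have h4 : a * (|u| / (3 / 4)) ≤ 4 / 3 * |u| := by
    calc a * (|u| / (3 / 4)) ≤ 1 * (|u| / (3 / 4)) := by gcongr
      _ = 4 / 3 * |u| := by ring
  have h6 : 0 ≤ a * (|u| / (3 / 4)) := by positivity
  gcongr

/-- common denominator -/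
theorem den (r : ℚ) (J : ℕ) : ∃ D : ℕ, 0 < D ∧ ∀ j ∈ range J, ∃ z : ℤ, (D : ℚ) * bc r j = z := by
  refine ⟨∏ j ∈ range J, (bc r j).den, Finset.prod_pos fun j _ => (bc r j).pos, ?_⟩
  intro j hj
  refine ⟨(∏ i ∈ (range J).erase j, ((bc r i).den : ℤ)) * (bc r j).num, ?_⟩
  rw [← Finset.mul_prod_erase _ _ hj]
  push_cast
  have : ((bc r j).den : ℚ) * bc r j = (bc r j).num := by
    rw [mul_comm]; exact Rat.mul_den_eq_num _
  calc ((bc r j).den : ℚ) * (∏ i ∈ (range J).erase j, ((bc r i).den : ℚ)) * bc r j =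
        (∏ i ∈ (range J).erase j, ((bc r i).den : ℚ)) * (((bc r j).den : ℚ) * bc r j) := by ring
    _ = _ := by rw [this]

/-- the coefficients of a power -/
theorem coeff_pow_le (h : ℕ) (P : ℤ[X]) (hP : ∀ k, |(P.coeff k : ℝ)| ≤ (h : ℝ) ^ k) (j k : ℕ) :
    |((P ^ j).coeff k : ℝ)| ≤ (k + 1) ^ j * (h : ℝ) ^ k := by
  induction j generalizing k with
  | zero =>
    rw [pow_zero, pow_zero, coeff_one]
    split_ifs with hk
    · rw [hk]; simp
    · simp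
  | succ j ih =>
    rw [pow_succ, coeff_mul]
    push_cast
    refine (Finset.abs_sum_le_sum_abs _ _).trans ?_
    have h1 : ∀ x ∈ antidiagonal k, |((P ^ j).coeff x.1 : ℝ) * (P.coeff x.2 : ℝ)| ≤
        ((k : ℝ) + 1) ^ j * (h : ℝ) ^ k := by
      intro x hx
      rw [Finset.HasAntidiagonal.mem_antidiagonal] at hx
      rw [abs_mul]
      have h2 : (x.1 : ℝ) ≤ k := by exact_mod_cast (by omega : x.1 ≤ k)
      calc |((P ^ j).coeff x.1 : ℝ)| * |(P.coeff x.2 : ℝ)| ≤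
            (((x.1 : ℝ) + 1) ^ j * (h : ℝ) ^ x.1) * ((h : ℝ) ^ x.2) := by
            gcongr
            · exact ih _
            · exact hP _
        _ = ((x.1 : ℝ) + 1) ^ j * (h : ℝ) ^ k := by rw [← hx, pow_add]; ring
        _ ≤ _ := by gcongr
    refine (Finset.sum_le_card_nsmul _ _ _ h1).trans ?_
    rw [Finset.Nat.card_antidiagonal, nsmul_eq_mul, pow_succ]
    push_cast
    linarith

/-- the coefficients of the Taylor polynomial of `(1 + P) ^ r` -/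
noncomputable def cf (r : ℚ) (J : ℕ) (P : ℤ[X]) (k : ℕ) : ℚ := ∑ j ∈ range J, bc r j * ((P ^ j).coeff k : ℚ)

theorem cf_den (r : ℚ) (J : ℕ) : ∃ D : ℕ, 0 < D ∧ ∀ (P : ℤ[X]) (k : ℕ), ∃ z : ℤ, (D : ℚ) * cf r J P k = z := by
  obtain ⟨D, hD, h⟩ := den r J
  choose! f hf using h
  refine ⟨D, hD, fun P k => ⟨∑ j ∈ range J, f j * (P ^ j).coeff k, ?_⟩⟩
  unfold cf
  rw [Finset.mul_sum]
  push_cast
  refine Finset.sum_congr rfl fun j hj => ?_
  rw [← hf j hj]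
  ring

theorem cf_le (r : ℚ) (J N : ℕ) : ∃ B : ℝ, 0 < B ∧ ∀ (h : ℕ) (P : ℤ[X]), (∀ k, |(P.coeff k : ℝ)| ≤ (h : ℝ) ^ k) →
    ∀ k < N, |(cf r J P k : ℝ)| ≤ B * (h : ℝ) ^ k := by
  refine ⟨∑ j ∈ range J, |(bc r j : ℝ)| * ((N : ℝ) + 1) ^ J + 1, by positivity, ?_⟩
  intro h P hP k hk
  unfold cf
  push_cast
  refine (Finset.abs_sum_le_sum_abs _ _).trans ?_
  have hh : 0 ≤ (h : ℝ) ^ k := by positivity
  rw [add_mul, one_mul, Finset.sum_mul]
  refine le_trans (Finset.sum_le_sum fun j hj => ?_) (le_add_of_nonneg_right hh)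
  rw [mem_range] at hj
  rw [abs_mul, mul_assoc]
  refine mul_le_mul_of_nonneg_left ?_ (abs_nonneg _)
  refine (coeff_pow_le h P hP j k).trans ?_
  refine mul_le_mul_of_nonneg_right ?_ hh
  have h1 : (k : ℝ) ≤ N := by exact_mod_cast hk.le
  calc ((k : ℝ) + 1) ^ j ≤ ((N : ℝ) + 1) ^ j := by gcongr
    _ ≤ ((N : ℝ) + 1) ^ J := pow_le_pow_right₀ (by linarith [(Nat.cast_nonneg N : (0 : ℝ) ≤ N)]) hj.le

/-- **The expansion at infinity.** -/
theorem approx (r : ℚ) (d J : ℕ) (hd : 1 ≤ d) : ∃ C : ℝ, 0 < C ∧ ∀ (h : ℕ) (P : ℤ[X]), P.natDegree ≤ d →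
    P.coeff 0 = 0 → (∀ k, |(P.coeff k : ℝ)| ≤ (h : ℝ) ^ k) → ∀ z : ℝ, 2 * (d * ((h : ℝ) * |z|)) ≤ 1 →
    |aeval z P| ≤ 1 / 2 ∧
    |(1 + aeval z P) ^ (r : ℝ) - ∑ k ∈ range J, ((cf r J P k : ℚ) : ℝ) * z ^ k| ≤ C * ((h : ℝ) * |z|) ^ J := by
  obtain ⟨C₁, hC₁, ht⟩ := taylor r J
  set N := d * J + J + 1 with hN
  obtain ⟨B, hB, hcf⟩ := cf_le r J N
  refine ⟨C₁ * (d : ℝ) ^ J + N * B, by positivity, ?_⟩
  intro h P hdeg h0 hP z hz
  have hd1 : (1 : ℝ) ≤ d := by exact_mod_cast hd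
  have hz0 : 0 ≤ (h : ℝ) * |z| := by positivity
  have hz1 : (h : ℝ) * |z| ≤ 1 := by nlinarith
  have hu : |aeval z P| ≤ d * ((h : ℝ) * |z|) := by
    rw [aeval_eq_sum_range' (n := d + 1) (by omega), Finset.sum_range_succ']
    rw [h0, zero_smul, add_zero]
    refine (Finset.abs_sum_le_sum_abs _ _).trans ?_
    have h1 : ∀ i ∈ range d, |P.coeff (i + 1) • z ^ (i + 1)| ≤ (h : ℝ) * |z| := by
      intro i _
      rw [zsmul_eq_mul, abs_mul, abs_pow]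
      calc |(P.coeff (i + 1) : ℝ)| * |z| ^ (i + 1) ≤ (h : ℝ) ^ (i + 1) * |z| ^ (i + 1) := by
            gcongr; exact hP _
        _ = ((h : ℝ) * |z|) ^ (i + 1) := by rw [mul_pow]
        _ ≤ ((h : ℝ) * |z|) ^ 1 := pow_le_pow_of_le_one hz0 hz1 (by omega)
        _ = _ := pow_one _
    refine (Finset.sum_le_card_nsmul _ _ _ h1).trans ?_
    rw [card_range, nsmul_eq_mul]
  have hu2 : |aeval z P| ≤ 1 / 2 := by linarith
  refine ⟨hu2, ?_⟩
  have h2 := ht _ hu2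
  have e : ∑ j ∈ range J, ((bc r j : ℚ) : ℝ) * (aeval z P) ^ j = ∑ k ∈ range N, ((cf r J P k : ℚ) : ℝ) * z ^ k := by
    have e1 : ∀ j ∈ range J, (aeval z P) ^ j = ∑ k ∈ range N, ((P ^ j).coeff k : ℝ) * z ^ k := by
      intro j hj
      rw [mem_range] at hj
      rw [← map_pow, aeval_eq_sum_range' (n := N)]
      · refine Finset.sum_congr rfl fun k _ => ?_
        rw [zsmul_eq_mul]
      · refine lt_of_le_of_lt natDegree_pow_le ?_
        have : j * P.natDegree ≤ J * d := Nat.mul_le_mul hj.le hdeg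
        rw [hN]
        have e2 : d * J = J * d := Nat.mul_comm _ _
        omega
    rw [Finset.sum_congr rfl (fun j hj => by rw [e1 j hj])]
    simp_rw [Finset.mul_sum]
    rw [Finset.sum_comm]
    refine Finset.sum_congr rfl fun k _ => ?_
    unfold cf
    push_cast
    rw [Finset.sum_mul]
    refine Finset.sum_congr rfl fun j _ => ?_
    ring
  rw [e, ← Finset.sum_range_add_sum_Ico _ (by omega : J ≤ N)] at h2
  have h3 : |∑ k ∈ Ico J N, ((cf r J P k : ℚ) : ℝ) * z ^ k| ≤ N * B * ((h : ℝ) * |z|) ^ J := by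
    refine (Finset.abs_sum_le_sum_abs _ _).trans ?_
    have h1 : ∀ k ∈ Ico J N, |((cf r J P k : ℚ) : ℝ) * z ^ k| ≤ B * ((h : ℝ) * |z|) ^ J := by
      intro k hk
      rw [mem_Ico] at hk
      rw [abs_mul, abs_pow]
      calc |((cf r J P k : ℚ) : ℝ)| * |z| ^ k ≤ (B * (h : ℝ) ^ k) * |z| ^ k := by
            gcongr; exact hcf h P hP k hk.2
        _ = B * ((h : ℝ) * |z|) ^ k := by rw [mul_pow]; ring
        _ ≤ B * ((h : ℝ) * |z|) ^ J := by
            refine mul_le_mul_of_nonneg_left (pow_le_pow_of_le_one hz0 hz1 hk.1) hB.le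
    refine (Finset.sum_le_card_nsmul _ _ _ h1).trans ?_
    rw [Nat.card_Ico, nsmul_eq_mul]
    have h4 : ((N - J : ℕ) : ℝ) ≤ N := by exact_mod_cast Nat.sub_le _ _
    have h5 : 0 ≤ B * ((h : ℝ) * |z|) ^ J := by positivity
    calc ((N - J : ℕ) : ℝ) * (B * ((h : ℝ) * |z|) ^ J) ≤ N * (B * ((h : ℝ) * |z|) ^ J) := by gcongr
      _ = _ := by ring
  have h6 : C₁ * |aeval z P| ^ J ≤ C₁ * (d : ℝ) ^ J * ((h : ℝ) * |z|) ^ J := by
    rw [mul_assoc, ← mul_pow]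
    gcongr
  have h7 := abs_sub_abs_le_abs_sub ((1 + aeval z P) ^ (r : ℝ) - ∑ k ∈ range J, ((cf r J P k : ℚ) : ℝ) * z ^ k)
    (∑ k ∈ Ico J N, ((cf r J P k : ℚ) : ℝ) * z ^ k)
  have e3 : (1 + aeval z P) ^ (r : ℝ) - ∑ k ∈ range J, ((cf r J P k : ℚ) : ℝ) * z ^ k -
      ∑ k ∈ Ico J N, ((cf r J P k : ℚ) : ℝ) * z ^ k = (1 + aeval z P) ^ (r : ℝ) -
      (∑ k ∈ range J, ((cf r J P k : ℚ) : ℝ) * z ^ k + ∑ k ∈ Ico J N, ((cf r J P k : ℚ) : ℝ) * z ^ k) := by ring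
  rw [e3] at h7
  rw [add_mul]
  linarith

end T9h23.Ru
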