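import Pool.Agent.T9h23.Ru.R1

/-! # Large arguments: the squares of the values of a monic polynomial of degree `3 e` are far from the cubes -/

set_option autoImplicit false

namespace T9h23.Ru

open Finset Polynomial

/-- the polynomial `∑ a_i X ^ (d - i)` -/
noncomputable def pol {d : ℕ} (a : Fin d → ℤ) : ℤ[X] := ∑ i : Fin d, C (a i) * X ^ (d - (i : ℕ))

/-- the value of the monic polynomial with coefficients `a` -/
def mv {d : ℕ} (a : Fin d → ℤ) (n : ℤ) : ℤ := n ^ d + ∑ i : Fin d, a i * n ^ (i : ℕ)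

/-- the weighted box -/
def InBox (h : ℕ) {d : ℕ} (a : Fin d → ℤ) : Prop := ∀ i : Fin d, |a i| ≤ (h : ℤ) ^ (d - (i : ℕ))

theorem coeff_pol {d : ℕ} (a : Fin d → ℤ) (k : ℕ) :
    (pol a).coeff k = ∑ i : Fin d, if k = d - (i : ℕ) then a i else 0 := by
  unfold pol
  rw [finset_sum_coeff]
  refine Finset.sum_congr rfl fun i _ => ?_
  rw [coeff_C_mul, coeff_X_pow]
  split_ifs <;> simp

theorem coeff_pol_self {d : ℕ} (a : Fin d → ℤ) (i : Fin d) : (pol a).coeff (d - (i : ℕ)) = a i := by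
  rw [coeff_pol, Finset.sum_eq_single i]
  · rw [if_pos rfl]
  · intro j _ hj
    rw [if_neg]
    intro h
    apply hj
    have := i.isLt
    have := j.isLt
    ext
    omega
  · intro h
    exact absurd (mem_univ _) h

theorem coeff_pol_zero {d : ℕ} (a : Fin d → ℤ) : (pol a).coeff 0 = 0 := by
  rw [coeff_pol]
  refine Finset.sum_eq_zero fun i _ => ?_
  rw [if_neg]
  have := i.isLt
  omega

theorem natDegree_pol {d : ℕ} (a : Fin d → ℤ) : (pol a).natDegree ≤ d := by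
  unfold pol
  refine natDegree_sum_le_of_forall_le _ _ fun i _ => ?_
  refine (natDegree_C_mul_X_pow_le _ _).trans ?_
  omega

theorem coeff_pol_le {h d : ℕ} (a : Fin d → ℤ) (ha : InBox h a) (k : ℕ) :
    |((pol a).coeff k : ℝ)| ≤ (h : ℝ) ^ k := by
  by_cases hk : ∃ i : Fin d, k = d - (i : ℕ)
  · obtain ⟨i, rfl⟩ := hk
    rw [coeff_pol_self]
    exact_mod_cast ha i
  · push Not at hk
    have : (pol a).coeff k = 0 := by
      rw [coeff_pol]
      refine Finset.sum_eq_zero fun i _ => ?_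
      rw [if_neg (hk i)]
    rw [this]
    simp

theorem mv_eq {d : ℕ} (a : Fin d → ℤ) (n : ℤ) (hn : n ≠ 0) :
    (mv a n : ℝ) = (n : ℝ) ^ d * (1 + aeval ((n : ℝ)⁻¹) (pol a)) := by
  have hn' : (n : ℝ) ≠ 0 := by exact_mod_cast hn
  unfold mv pol
  rw [map_sum]
  push_cast
  rw [mul_add, mul_one, Finset.mul_sum]
  congr 1
  refine Finset.sum_congr rfl fun i _ => ?_
  have hi := i.isLt
  rw [map_mul, map_pow, aeval_X, aeval_C]
  have e : (n : ℝ) ^ d = (n : ℝ) ^ (i : ℕ) * (n : ℝ) ^ (d - (i : ℕ)) := by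
    rw [← pow_add]; congr 1; omega
  rw [e, inv_pow]
  field_simp
  simp

/-- the first coefficient of negative degree of the expansion of `f ^ (2 / 3)`, `deg f = 3 e` -/
noncomputable def lead (e : ℕ) (a : Fin (3 * e) → ℤ) : ℚ := cf (2 / 3) (2 * e + 2) (pol a) (2 * e + 1)

/-- **Distance from the integers.** -/
theorem near (e : ℕ) (he : 1 ≤ e) : ∃ C₀ c : ℝ, 1 ≤ C₀ ∧ 0 < c ∧ ∀ h : ℕ, 1 ≤ h → ∀ a : Fin (3 * e) → ℤ,
    InBox h a → C₀ * h ≤ |(lead e a : ℝ)| → ∀ n : ℤ, C₀ * (h : ℝ) ^ (2 * e + 1) ≤ |(n : ℝ)| →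
    ∃ s : ℝ, s ^ 3 = (mv a n : ℝ) ^ 2 ∧ |(n : ℝ)| ^ (2 * e) / 2 ≤ s ∧ ∀ x : ℤ, c / |(n : ℝ)| ≤ |s - x| := by
  obtain ⟨C, hC, happ⟩ := approx (2 / 3) (3 * e) (2 * e + 2) (by omega)
  obtain ⟨D, hD, hden⟩ := cf_den (2 / 3) (2 * e + 2)
  obtain ⟨B, hB, hcf⟩ := cf_le (2 / 3) (2 * e + 2) (2 * e + 2)
  have hDr : (1 : ℝ) ≤ D := by exact_mod_cast hD
  set C₀ : ℝ := 6 * e + 2 * D * (B + C) + C + 1 with hC₀
  have he1 : (1 : ℝ) ≤ e := by exact_mod_cast he
  have hBC : 0 < 2 * D * (B + C) := by positivity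
  refine ⟨C₀, 1 / (2 * D), by rw [hC₀]; nlinarith, by positivity, ?_⟩
  intro h hh a ha hlead n hn
  have hh1 : (1 : ℝ) ≤ h := by exact_mod_cast hh
  have hC1 : 1 ≤ C₀ := by rw [hC₀]; nlinarith
  have hhm : (h : ℝ) ≤ (h : ℝ) ^ (2 * e + 1) := le_self_pow₀ hh1 (by omega)
  have hn1 : C₀ * h ≤ |(n : ℝ)| := le_trans (by gcongr) hn
  have hnpos : 0 < |(n : ℝ)| := lt_of_lt_of_le (by positivity) hn1
  have hn0 : n ≠ 0 := by
    rintro rfl
    simp at hnpos
  have hnr : (n : ℝ) ≠ 0 := by exact_mod_cast hn0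
  have hz : 2 * (((3 * e : ℕ) : ℝ) * ((h : ℝ) * |(n : ℝ)⁻¹|)) ≤ 1 := by
    rw [abs_inv]
    push_cast
    rw [show 2 * (3 * (e : ℝ) * ((h : ℝ) * |(n : ℝ)|⁻¹)) = (6 * e * h) / |(n : ℝ)| by field_simp; ring,
      div_le_one hnpos]
    refine le_trans ?_ hn1
    have : 6 * (e : ℝ) ≤ C₀ := by rw [hC₀]; nlinarith
    gcongr
  obtain ⟨hu, hser⟩ := happ h (pol a) (natDegree_pol a) (coeff_pol_zero a) (coeff_pol_le a ha) _ hz
  set u := aeval ((n : ℝ)⁻¹) (pol a) with hu_def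
  have hu1 : (1 : ℝ) / 2 ≤ 1 + u := by
    have := (abs_le.1 hu).1
    linarith
  have hu0 : 0 < 1 + u := by linarith
  set w := (1 + u) ^ (((2 / 3 : ℚ)) : ℝ) with hw
  have hw0 : 0 ≤ w := Real.rpow_nonneg hu0.le _
  have hw3 : w ^ 3 = (1 + u) ^ 2 := by
    rw [hw, ← Real.rpow_natCast, ← Real.rpow_mul hu0.le]
    push_cast
    norm_num
  have hw1 : 1 / 2 ≤ w := by
    have h1 : (1 / 2 : ℝ) ^ (1 : ℝ) ≤ (1 / 2 : ℝ) ^ (((2 / 3 : ℚ)) : ℝ) :=
      Real.rpow_le_rpow_of_exponent_ge (by norm_num) (by norm_num) (by push_cast; norm_num)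
    rw [Real.rpow_one] at h1
    exact h1.trans (Real.rpow_le_rpow (by norm_num) hu1 (by push_cast; norm_num))
  have hev : (n : ℝ) ^ (2 * e) = |(n : ℝ)| ^ (2 * e) := by
    rw [pow_mul, pow_mul, sq_abs]
  refine ⟨(n : ℝ) ^ (2 * e) * w, ?_, ?_, ?_⟩
  · rw [mul_pow, hw3, mv_eq a n hn0, mul_pow, ← pow_mul, ← pow_mul]
    congr 2
    ring
  · rw [hev]
    have : 0 ≤ |(n : ℝ)| ^ (2 * e) := by positivity
    nlinarith
  · intro x
    -- the polynomial part
    obtain ⟨zf, hzf⟩ : ∃ zf : ℕ → ℤ, ∀ k, (D : ℚ) * cf (2 / 3) (2 * e + 2) (pol a) k = zf k :=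
      ⟨fun k => (hden (pol a) k).choose, fun k => (hden (pol a) k).choose_spec⟩
    set g : ℝ := ∑ k ∈ range (2 * e + 1), ((cf (2 / 3) (2 * e + 2) (pol a) k : ℚ) : ℝ) * (n : ℝ) ^ (2 * e - k) with hg
    have hG : (D : ℝ) * g = ((∑ k ∈ range (2 * e + 1), zf k * n ^ (2 * e - k) : ℤ) : ℝ) := by
      rw [hg, Finset.mul_sum]
      push_cast
      refine Finset.sum_congr rfl fun k _ => ?_
      have h1 : (D : ℝ) * ((cf (2 / 3) (2 * e + 2) (pol a) k : ℚ) : ℝ) = (zf k : ℝ) := by exact_mod_cast hzf k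
      rw [← mul_assoc, h1]
    have hsplit : (n : ℝ) ^ (2 * e) * ∑ k ∈ range (2 * e + 2), ((cf (2 / 3) (2 * e + 2) (pol a) k : ℚ) : ℝ) *
        (n : ℝ)⁻¹ ^ k = g + (lead e a : ℝ) / n := by
      rw [Finset.sum_range_succ, mul_add, Finset.mul_sum, hg]
      congr 1
      · refine Finset.sum_congr rfl fun k hk => ?_
        rw [mem_range] at hk
        have e1 : (n : ℝ) ^ (2 * e) = (n : ℝ) ^ (2 * e - k) * (n : ℝ) ^ k := by
          rw [← pow_add]; congr 1; omega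
        rw [e1, inv_pow]
        field_simp
      · unfold lead
        rw [inv_pow, pow_succ]
        field_simp
    have herr : |(n : ℝ) ^ (2 * e) * w - (g + (lead e a : ℝ) / n)| ≤ C * (h : ℝ) ^ (2 * e + 2) / |(n : ℝ)| ^ 2 := by
      rw [← hsplit, ← mul_sub, abs_mul, hev, abs_of_nonneg (by positivity : 0 ≤ |(n : ℝ)| ^ (2 * e))]
      calc |(n : ℝ)| ^ (2 * e) * |w - ∑ k ∈ range (2 * e + 2), ((cf (2 / 3) (2 * e + 2) (pol a) k : ℚ) : ℝ) *
            (n : ℝ)⁻¹ ^ k| ≤ |(n : ℝ)| ^ (2 * e) * (C * ((h : ℝ) * |(n : ℝ)⁻¹|) ^ (2 * e + 2)) := by gcongr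
        _ = _ := by
          rw [mul_pow, abs_inv, inv_pow, pow_add |(n : ℝ)|]
          field_simp
    have hhH : (h : ℝ) ^ (2 * e + 2) = (h : ℝ) ^ (2 * e + 1) * h := by rw [← pow_succ]
    have hhm0 : 0 < (h : ℝ) ^ (2 * e + 1) := by positivity
    have hn2 : (h : ℝ) ^ (2 * e + 1) ≤ |(n : ℝ)| := le_trans (by nlinarith) hn
    have hE2 : C * (h : ℝ) ^ (2 * e + 2) / |(n : ℝ)| ^ 2 ≤ C * h / |(n : ℝ)| := by
      rw [hhH, div_le_div_iff₀ (by positivity) hnpos]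
      calc C * ((h : ℝ) ^ (2 * e + 1) * h) * |(n : ℝ)| = (C * h * |(n : ℝ)|) * (h : ℝ) ^ (2 * e + 1) := by ring
        _ ≤ (C * h * |(n : ℝ)|) * |(n : ℝ)| := by gcongr
        _ = _ := by ring
    by_cases hx : (D : ℝ) * g = D * x
    · -- the integer is the value of the polynomial part
      have hgx : g = x := mul_left_cancel₀ (by positivity) hx
      rw [hgx] at herr
      have h1 : |(lead e a : ℝ) / n| - C * (h : ℝ) ^ (2 * e + 2) / |(n : ℝ)| ^ 2 ≤ |(n : ℝ) ^ (2 * e) * w - x| := by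
        have h2 := abs_sub_abs_le_abs_sub ((lead e a : ℝ) / n) (-((n : ℝ) ^ (2 * e) * w - x - (lead e a : ℝ) / n))
        have h3 : (lead e a : ℝ) / n - -((n : ℝ) ^ (2 * e) * w - x - (lead e a : ℝ) / n) = (n : ℝ) ^ (2 * e) * w - x := by
          ring
        rw [h3, abs_neg] at h2
        have h4 : (n : ℝ) ^ (2 * e) * w - x - (lead e a : ℝ) / n = (n : ℝ) ^ (2 * e) * w - (x + (lead e a : ℝ) / n) := by
          ring
        rw [h4] at h2
        linarith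
      refine le_trans ?_ h1
      have h2 : (C₀ * h) / |(n : ℝ)| ≤ |(lead e a : ℝ) / n| := by
        rw [abs_div]; gcongr
      have h3 : 1 / (2 * (D : ℝ)) ≤ 1 := by
        rw [div_le_one (by positivity)]; linarith
      have h4 : 1 / (2 * (D : ℝ)) / |(n : ℝ)| ≤ (C₀ * h) / |(n : ℝ)| - C * h / |(n : ℝ)| := by
        rw [← sub_div]
        gcongr
        have h5 : C + 1 ≤ C₀ := by rw [hC₀]; nlinarith
        nlinarith
      linarith
    · -- a different integer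
      have h1 : 1 / (D : ℝ) ≤ |g - x| := by
        have h2 : (1 : ℝ) ≤ |(D : ℝ) * g - D * x| := by
          rw [hG] at hx ⊢
          have h3 : ((∑ k ∈ range (2 * e + 1), zf k * n ^ (2 * e - k) : ℤ) : ℝ) - D * x =
              (((∑ k ∈ range (2 * e + 1), zf k * n ^ (2 * e - k)) - D * x : ℤ) : ℝ) := by push_cast; ring
          rw [h3]
          have h4 : (∑ k ∈ range (2 * e + 1), zf k * n ^ (2 * e - k)) - D * x ≠ 0 := by
            intro h5
            apply hx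
            have h6 : (∑ k ∈ range (2 * e + 1), zf k * n ^ (2 * e - k)) = D * x := by linarith
            rw [h6]; push_cast; ring
          exact_mod_cast Int.one_le_abs h4
        rw [← mul_sub, abs_mul, abs_of_pos (by positivity : (0 : ℝ) < D)] at h2
        rw [div_le_iff₀ (by positivity)]
        linarith
      have h2 : |(lead e a : ℝ) / n| ≤ B * (h : ℝ) ^ (2 * e + 1) / |(n : ℝ)| := by
        rw [abs_div]
        gcongr
        exact hcf h (pol a) (coeff_pol_le a ha) (2 * e + 1) (by omega)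
      have h3 : |(n : ℝ) ^ (2 * e) * w - g| ≤ (B + C) * (h : ℝ) ^ (2 * e + 1) / |(n : ℝ)| := by
        have e1 : (n : ℝ) ^ (2 * e) * w - g = ((n : ℝ) ^ (2 * e) * w - (g + (lead e a : ℝ) / n)) + (lead e a : ℝ) / n := by
          ring
        rw [e1]
        refine (abs_add_le _ _).trans ?_
        have h4 : C * h / |(n : ℝ)| ≤ C * (h : ℝ) ^ (2 * e + 1) / |(n : ℝ)| := by gcongr
        have e2 : (B + C) * (h : ℝ) ^ (2 * e + 1) / |(n : ℝ)| = B * (h : ℝ) ^ (2 * e + 1) / |(n : ℝ)| +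
            C * (h : ℝ) ^ (2 * e + 1) / |(n : ℝ)| := by ring
        rw [e2]
        linarith
      have h4 : (B + C) * (h : ℝ) ^ (2 * e + 1) / |(n : ℝ)| ≤ 1 / (2 * D) := by
        rw [div_le_div_iff₀ hnpos (by positivity), one_mul]
        refine le_trans ?_ hn
        have h5 : 2 * (D : ℝ) * (B + C) ≤ C₀ := by rw [hC₀]; nlinarith
        calc (B + C) * (h : ℝ) ^ (2 * e + 1) * (2 * D) = (2 * D * (B + C)) * (h : ℝ) ^ (2 * e + 1) := by ring
          _ ≤ _ := by gcongr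
      have h5 : |g - x| ≤ |(n : ℝ) ^ (2 * e) * w - g| + |(n : ℝ) ^ (2 * e) * w - x| := by
        have e1 : g - x = -((n : ℝ) ^ (2 * e) * w - g) + ((n : ℝ) ^ (2 * e) * w - x) := by ring
        rw [e1]
        refine (abs_add_le _ _).trans ?_
        rw [abs_neg]
      have h6 : 1 / (D : ℝ) = 1 / (2 * D) + 1 / (2 * D) := by field_simp; ring
      have h7 : 1 / (2 * (D : ℝ)) / |(n : ℝ)| ≤ 1 / (2 * D) := by
        apply div_le_self (by positivity)
        nlinarith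
      linarith

end T9h23.Ru
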