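import Pool.Agent.T9h23.Ru.R2

/-! # Hall's inequality for large arguments, and the polynomials with a small leading remainder -/

set_option autoImplicit false

namespace T9h23.Ru

open Finset Polynomial

/-- **Large arguments.** -/
theorem large (e : ℕ) (he : 1 ≤ e) : ∃ C₀ C₁ : ℝ, 1 ≤ C₀ ∧ 1 ≤ C₁ ∧ ∀ h : ℕ, 1 ≤ h → ∀ a : Fin (3 * e) → ℤ,
    InBox h a → C₀ * h ≤ |(lead e a : ℝ)| → ∀ n : ℤ, C₁ * (h : ℝ) ^ (2 * e + 1) ≤ |(n : ℝ)| →
    ∀ x : ℤ, |x| ≤ 32 * |(mv a n) ^ 2 - x ^ 3| := by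
  obtain ⟨C₀, c, hC₀, hc, hnear⟩ := near e he
  refine ⟨C₀, max C₀ (1 / (6 * c)), hC₀, hC₀.trans (le_max_left _ _), ?_⟩
  intro h hh a ha hlead n hn x
  have hh1 : (1 : ℝ) ≤ h := by exact_mod_cast hh
  have hhm : (1 : ℝ) ≤ (h : ℝ) ^ (2 * e + 1) := one_le_pow₀ hh1
  have hn1 : C₀ * (h : ℝ) ^ (2 * e + 1) ≤ |(n : ℝ)| := le_trans (by gcongr; exact le_max_left _ _) hn
  have hn2 : 1 / (6 * c) ≤ |(n : ℝ)| := by
    refine le_trans ?_ hn
    have h1 : 1 / (6 * c) ≤ max C₀ (1 / (6 * c)) := le_max_right _ _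
    have h2 : 0 < max C₀ (1 / (6 * c)) := lt_of_lt_of_le (by linarith) (le_max_left _ _)
    nlinarith
  have hn3 : 1 ≤ |(n : ℝ)| := le_trans (by nlinarith) hn1
  obtain ⟨s, hs3, hs, hsx⟩ := hnear h hh a ha hlead n hn1
  have hx := hsx x
  obtain ⟨m, hm⟩ : ∃ m : ℝ, m = |(n : ℝ)| := ⟨_, rfl⟩
  rw [← hm] at hn2 hn3 hs hx
  have hm0 : 0 < m := by linarith
  have hcm : 1 / 6 ≤ c * m := by
    rw [div_le_iff₀ (by positivity)] at hn2
    linarith
  -- real version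
  have key : |(x : ℝ)| ≤ 32 * |(mv a n : ℝ) ^ 2 - (x : ℝ) ^ 3| := by
    rw [← hs3]
    have hfac : s ^ 3 - (x : ℝ) ^ 3 = (s - x) * (s ^ 2 + s * x + x ^ 2) := by ring
    have hq1 : 3 / 4 * s ^ 2 ≤ s ^ 2 + s * x + x ^ 2 := by nlinarith [sq_nonneg (s / 2 + x)]
    have hq2 : 3 / 4 * (x : ℝ) ^ 2 ≤ s ^ 2 + s * x + x ^ 2 := by nlinarith [sq_nonneg (s + x / 2)]
    have hq0 : 0 ≤ s ^ 2 + s * x + x ^ 2 := le_trans (by positivity) hq1
    rw [hfac, abs_mul, abs_of_nonneg hq0]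
    have hs0 : 0 < s := lt_of_lt_of_le (by positivity) hs
    by_cases hc1 : |(x : ℝ)| ≤ 2 * s
    · have hme : m ≤ m ^ (2 * e - 1) := le_self_pow₀ hn3 (by omega)
      have hsm : m ^ 2 / 2 ≤ s := by
        have : m ^ 2 ≤ m ^ (2 * e) := pow_le_pow_right₀ hn3 (by omega)
        linarith
      have h1 : c / m * (3 / 4 * s ^ 2) ≤ |s - x| * (s ^ 2 + s * x + x ^ 2) := by gcongr
      have h2 : c / m * (3 / 4 * s ^ 2) = 3 / 4 * (c / m * s) * s := by ring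
      have h3 : c * m / 2 ≤ c / m * s := by
        calc c * m / 2 = c / m * (m ^ 2 / 2) := by field_simp
          _ ≤ c / m * s := by gcongr
      have h4 : 1 / 16 * s ≤ c / m * (3 / 4 * s ^ 2) := by
        rw [h2]
        have h5 : 1 / 12 ≤ c / m * s := by linarith
        nlinarith
      linarith
    · push Not at hc1
      have hxr : 1 ≤ |(x : ℝ)| := by
        have hx0 : x ≠ 0 := by
          rintro rfl
          simp at hc1
          linarith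
        have : 1 ≤ |x| := Int.one_le_abs hx0
        exact_mod_cast this
      have h1 : |(x : ℝ)| / 2 ≤ |s - x| := by
        have h2 := abs_sub_abs_le_abs_sub (x : ℝ) s
        rw [abs_sub_comm] at h2
        rw [abs_of_pos hs0] at h2
        linarith
      have h2 : |(x : ℝ)| / 2 * (3 / 4 * (x : ℝ) ^ 2) ≤ |s - x| * (s ^ 2 + s * x + x ^ 2) := by gcongr
      have h3 : 1 ≤ (x : ℝ) ^ 2 := by
        rw [← sq_abs]; exact one_le_pow₀ hxr
      have h4 : |(x : ℝ)| / 2 * (3 / 4 * 1) ≤ |(x : ℝ)| / 2 * (3 / 4 * (x : ℝ) ^ 2) := by gcongr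
      linarith
  exact_mod_cast key

end T9h23.Ru
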