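import Pool.Agent.T9h23.Ru.R3

/-! # The polynomials with a small leading remainder -/

set_option autoImplicit false

namespace T9h23.Ru

open Finset Polynomial
open scoped Classical

theorem pow_sub_dvd (P Q : ℤ[X]) (m : ℕ) (hP : P.coeff 0 = 0) (hQ : Q.coeff 0 = 0) (h : X ^ m ∣ P - Q)
    (j : ℕ) (hj : 2 ≤ j) : X ^ (m + 1) ∣ P ^ j - Q ^ j := by
  obtain ⟨k, rfl⟩ : ∃ k, j = k + 2 := ⟨j - 2, by omega⟩
  have e : P ^ (k + 2) - Q ^ (k + 2) = (P ^ (k + 1) - Q ^ (k + 1)) * P + Q ^ (k + 1) * (P - Q) := by ring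
  rw [e]
  have hXP : X ∣ P := X_dvd_iff.2 hP
  have hXQ : X ∣ Q := X_dvd_iff.2 hQ
  apply dvd_add
  · rw [pow_succ]
    exact mul_dvd_mul (h.trans (sub_dvd_pow_sub_pow P Q (k + 1))) hXP
  · rw [pow_succ']
    exact mul_dvd_mul (hXQ.trans (dvd_pow_self Q (by omega))) h

theorem lead_sub (e : ℕ) (he : 1 ≤ e) (a b : Fin (3 * e) → ℤ) (i₀ : Fin (3 * e)) (hi₀ : (i₀ : ℕ) = e - 1)
    (hab : ∀ i, i ≠ i₀ → a i = b i) : lead e a - lead e b = 2 / 3 * ((a i₀ : ℚ) - b i₀) := by
  have hk : 3 * e - (i₀ : ℕ) = 2 * e + 1 := by omega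
  have hdvd : X ^ (2 * e + 1) ∣ pol a - pol b := by
    rw [X_pow_dvd_iff]
    intro k hk2
    rw [coeff_sub, coeff_pol, coeff_pol, ← Finset.sum_sub_distrib]
    refine Finset.sum_eq_zero fun i _ => ?_
    split_ifs with h1
    · rw [hab i, sub_self]
      rintro rfl
      omega
    · simp
  unfold lead cf
  rw [← Finset.sum_sub_distrib, Finset.sum_eq_single 1]
  · rw [pow_one, pow_one, bc_one]
    have e1 := coeff_pol_self a i₀
    have e2 := coeff_pol_self b i₀
    rw [hk] at e1 e2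
    rw [e1, e2]
    ring
  · intro j hj hj1
    rcases Nat.lt_or_ge j 2 with h | h
    · have h0 : j = 0 := by omega
      subst h0
      simp
    · have h2 := pow_sub_dvd (pol a) (pol b) (2 * e + 1) (coeff_pol_zero a) (coeff_pol_zero b) hdvd j h
      rw [X_pow_dvd_iff] at h2
      have h3 := h2 (2 * e + 1) (by omega)
      rw [coeff_sub] at h3
      have h4 : (pol a ^ j).coeff (2 * e + 1) = (pol b ^ j).coeff (2 * e + 1) := by omega
      rw [h4, sub_self]
  · intro h
    exact absurd (mem_range.2 (by omega)) h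

/-- boxes -/
noncomputable def gbox {d : ℕ} (B : Fin d → ℕ) : Finset (Fin d → ℤ) :=
  Fintype.piFinset fun i => Icc (-(B i : ℤ)) (B i)

theorem mem_gbox {d : ℕ} {B : Fin d → ℕ} {a : Fin d → ℤ} : a ∈ gbox B ↔ ∀ i, |a i| ≤ B i := by
  unfold gbox
  rw [Fintype.mem_piFinset]
  refine forall_congr' fun i => ?_
  rw [mem_Icc, abs_le]

theorem card_gbox {d : ℕ} (B : Fin d → ℕ) : (gbox B).card = ∏ i, (2 * B i + 1) := by
  unfold gbox
  rw [Fintype.card_piFinset]
  refine Finset.prod_congr rfl fun i _ => ?_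
  rw [Int.card_Icc]
  omega

theorem fibre {d : ℕ} (B : Fin d → ℕ) (S : Finset (Fin d → ℤ)) (hS : S ⊆ gbox B) (i₀ : Fin d) (M : ℕ)
    (h : ∀ a ∈ gbox B, (S.filter (fun b => ∀ i, i ≠ i₀ → b i = a i)).card ≤ M) :
    S.card * (2 * B i₀ + 1) ≤ M * (gbox B).card := by
  have h1 : S.card ≤ M * (gbox (Function.update B i₀ 0)).card := by
    refine Finset.card_le_mul_card_image_of_maps_to (f := fun a => Function.update a i₀ 0) ?_ M ?_
    · intro a ha
      have h2 := mem_gbox.1 (hS ha)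
      rw [mem_gbox]
      intro i
      by_cases hi : i = i₀
      · subst hi
        simp
      · rw [Function.update_of_ne hi, Function.update_of_ne hi]
        exact h2 i
    · intro b hb
      rw [mem_gbox] at hb
      have hb' : b ∈ gbox B := by
        rw [mem_gbox]
        intro i
        have h3 := hb i
        by_cases hi : i = i₀
        · subst hi
          rw [Function.update_self] at h3
          have : (0 : ℤ) ≤ B i := by positivity
          push_cast at h3
          linarith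
        · rwa [Function.update_of_ne hi] at h3
      refine le_trans (Finset.card_le_card ?_) (h b hb')
      intro a ha
      rw [mem_filter] at ha ⊢
      refine ⟨ha.1, fun i hi => ?_⟩
      rw [← ha.2, Function.update_of_ne hi]
  have h2 : (gbox (Function.update B i₀ 0)).card * (2 * B i₀ + 1) = (gbox B).card := by
    rw [card_gbox, card_gbox, ← Finset.mul_prod_erase univ _ (mem_univ i₀),
      ← Finset.mul_prod_erase univ (fun i => 2 * B i + 1) (mem_univ i₀), Function.update_self]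
    have h3 : ∏ x ∈ univ.erase i₀, (2 * Function.update B i₀ 0 x + 1) = ∏ x ∈ univ.erase i₀, (2 * B x + 1) := by
      refine Finset.prod_congr rfl fun i hi => ?_
      rw [Function.update_of_ne (Finset.ne_of_mem_erase hi)]
    rw [h3]
    ring
  calc S.card * (2 * B i₀ + 1) ≤ M * (gbox (Function.update B i₀ 0)).card * (2 * B i₀ + 1) := by gcongr
    _ = M * (gbox B).card := by rw [mul_assoc, h2]

/-- the weighted box -/
noncomputable def wbox (d H : ℕ) : Finset (Fin d → ℤ) := gbox fun i => H ^ (d - (i : ℕ))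

theorem mem_wbox {d H : ℕ} {a : Fin d → ℤ} : a ∈ wbox d H ↔ InBox H a := by
  unfold wbox InBox
  rw [mem_gbox]
  push_cast
  rfl

/-- integers in a short interval -/
theorem card_near (s : Finset ℤ) (u ρ : ℝ) (hρ : 0 ≤ ρ) (h : ∀ t ∈ s, |(t : ℝ) - u| < ρ) :
    (s.card : ℝ) ≤ 2 * ρ + 1 := by
  have h1 : s ⊆ Icc ⌈u - ρ⌉ ⌊u + ρ⌋ := by
    intro t ht
    have h2 := abs_lt.1 (h t ht)
    rw [mem_Icc, Int.ceil_le, Int.le_floor]
    constructor <;> linarith
  have h2 := Finset.card_le_card h1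
  rw [Int.card_Icc] at h2
  have h3 : ((⌊u + ρ⌋ + 1 - ⌈u - ρ⌉).toNat : ℝ) ≤ 2 * ρ + 1 := by
    rcases le_total (⌊u + ρ⌋ + 1 - ⌈u - ρ⌉) 0 with h4 | h4
    · rw [Int.toNat_of_nonpos h4]
      push_cast
      linarith
    · have h5 : (((⌊u + ρ⌋ + 1 - ⌈u - ρ⌉).toNat : ℤ) : ℝ) = ((⌊u + ρ⌋ + 1 - ⌈u - ρ⌉ : ℤ) : ℝ) := by
        rw [Int.toNat_of_nonneg h4]
      rw [Int.cast_natCast] at h5
      rw [h5]
      push_cast
      linarith [Int.floor_le (u + ρ), Int.le_ceil (u - ρ)]
  calc (s.card : ℝ) ≤ ((⌊u + ρ⌋ + 1 - ⌈u - ρ⌉).toNat : ℝ) := by exact_mod_cast h2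
    _ ≤ _ := h3

/-- **Few polynomials with a small leading remainder.** -/
theorem few (e : ℕ) (he : 1 ≤ e) (H : ℕ) (R : ℝ) (hR : 0 ≤ R) :
    (((wbox (3 * e) H).filter (fun a => |(lead e a : ℝ)| < R)).card : ℝ) * (2 * (H : ℝ) ^ (2 * e + 1) + 1) ≤
      (3 * R + 1) * (wbox (3 * e) H).card := by
  set i₀ : Fin (3 * e) := ⟨e - 1, by omega⟩ with hi₀
  have hB : 3 * e - (i₀ : ℕ) = 2 * e + 1 := by
    rw [hi₀]; dsimp only; omega
  have h1 := fibre (fun i : Fin (3 * e) => H ^ (3 * e - (i : ℕ)))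
    ((wbox (3 * e) H).filter (fun a => |(lead e a : ℝ)| < R)) (Finset.filter_subset _ _) i₀ ⌊3 * R + 1⌋₊ (by
      intro a _
      apply Nat.le_floor
      set F := ((wbox (3 * e) H).filter (fun a => |(lead e a : ℝ)| < R)).filter (fun b => ∀ i, i ≠ i₀ → b i = a i)
        with hF
      have hinj : Set.InjOn (fun b : Fin (3 * e) → ℤ => b i₀) (F : Set (Fin (3 * e) → ℤ)) := by
        intro b hb c hc hbc
        rw [Finset.mem_coe, hF, mem_filter] at hb hc
        funext i
        by_cases hi : i = i₀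
        · rw [hi]; exact hbc
        · rw [hb.2 i hi, hc.2 i hi]
      rw [← Finset.card_image_of_injOn hinj]
      have h2 := card_near (F.image (fun b : Fin (3 * e) → ℤ => b i₀)) ((a i₀ : ℝ) - 3 / 2 * (lead e a : ℝ))
        (3 / 2 * R) (by positivity) (by
          intro t ht
          rw [mem_image] at ht
          obtain ⟨b, hb, rfl⟩ := ht
          rw [hF, mem_filter, mem_filter] at hb
          have h3 := lead_sub e he b a i₀ rfl (fun i hi => hb.2 i hi)
          have h4 : (lead e b : ℝ) - (lead e a : ℝ) = 2 / 3 * ((b i₀ : ℝ) - a i₀) := by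
            have h7 := congrArg (fun q : ℚ => (q : ℝ)) h3
            push_cast at h7
            exact h7
          have h5 : (b i₀ : ℝ) - ((a i₀ : ℝ) - 3 / 2 * (lead e a : ℝ)) = 3 / 2 * (lead e b : ℝ) := by linarith
          rw [h5, abs_mul]
          have h6 := hb.1.2
          rw [show |(3 / 2 : ℝ)| = 3 / 2 by norm_num]
          linarith)
      linarith)
  have h2 : ((((wbox (3 * e) H).filter (fun a => |(lead e a : ℝ)| < R)).card *
      (2 * H ^ (3 * e - (i₀ : ℕ)) + 1) : ℕ) : ℝ) ≤ ((⌊3 * R + 1⌋₊ * (wbox (3 * e) H).card : ℕ) : ℝ) := by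
    exact_mod_cast h1
  rw [hB] at h2
  push_cast at h2
  refine h2.trans ?_
  gcongr
  exact Nat.floor_le (by linarith)

end T9h23.Ru
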