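import Pool.Agent.V60.LD.HallCount

/-! # Counting the ordinates of the integral points with large abscissas -/

set_option autoImplicit false

namespace T9h23.Ru

open Finset
open scoped Classical

/-- `y` is the ordinate of a point with a large abscissa -/
def Bad (y : ℤ) : Prop := ∃ x : ℤ, y ^ 2 ≠ x ^ 3 ∧ 32 * |y ^ 2 - x ^ 3| < |x|

theorem bad_pos {x y : ℤ} (h : 32 * |y ^ 2 - x ^ 3| < |x|) : 0 < x := by
  by_contra hc
  push Not at hc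
  obtain ⟨z, hz⟩ : ∃ z : ℤ, z = -x := ⟨_, rfl⟩
  have hz0 : 0 ≤ z := by omega
  have e : x = -z := by omega
  have h3 : 0 ≤ z ^ 3 := by positivity
  have h5 : 0 ≤ y ^ 2 := sq_nonneg y
  have h4 : z ≤ z ^ 3 := by
    rcases hz0.eq_or_lt with h0 | h0
    · rw [← h0]; norm_num
    · have h1 : 1 ≤ z := h0
      exact le_self_pow₀ h1 (by norm_num)
  have h6 : y ^ 2 - (-z) ^ 3 = y ^ 2 + z ^ 3 := by ring
  rw [e, h6, abs_neg, abs_of_nonneg hz0, abs_of_nonneg (by linarith)] at h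
  linarith

theorem bad_mem {x y : ℤ} (hne : y ^ 2 ≠ x ^ 3) (h : 32 * |y ^ 2 - x ^ 3| < |x|) :
    x.natAbs ∈ Pool.Agent.V60.Hall.E := by
  have hx0 := bad_pos h
  refine ⟨y.natAbs, ?_, ?_⟩
  · rw [Int.natCast_natAbs, Int.natCast_natAbs, sq_abs, abs_of_pos hx0]
    exact hne
  · rw [Int.natCast_natAbs, Int.natCast_natAbs, sq_abs, abs_of_pos hx0]
    rw [abs_of_pos hx0] at h
    exact h.le

theorem bad_size {x y : ℤ} (h : 32 * |y ^ 2 - x ^ 3| < |x|) : x ^ 3 ≤ 2 * y ^ 2 := by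
  have hx0 := bad_pos h
  rw [abs_of_pos hx0] at h
  have h1 : x ≤ x ^ 3 := le_self_pow₀ hx0 (by norm_num)
  have h2 := neg_abs_le (y ^ 2 - x ^ 3)
  nlinarith

theorem bad_unique {x y z : ℤ} (h : 32 * |y ^ 2 - x ^ 3| < |x|) (h' : 32 * |z ^ 2 - x ^ 3| < |x|) : |y| = |z| := by
  have hx0 := bad_pos h
  rw [abs_of_pos hx0] at h h'
  by_contra hne
  obtain ⟨u, hu⟩ : ∃ u : ℤ, u = |y| := ⟨_, rfl⟩
  obtain ⟨v, hv⟩ : ∃ v : ℤ, v = |z| := ⟨_, rfl⟩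
  have hu0 : 0 ≤ u := by rw [hu]; exact abs_nonneg y
  have hv0 : 0 ≤ v := by rw [hv]; exact abs_nonneg z
  rw [← sq_abs y, ← hu] at h
  rw [← sq_abs z, ← hv] at h'
  rw [← hu, ← hv] at hne
  have h1 : 1 ≤ |u - v| := Int.one_le_abs (sub_ne_zero.2 hne)
  have h2 : |u ^ 2 - v ^ 2| = |u - v| * (u + v) := by
    have e : u ^ 2 - v ^ 2 = (u - v) * (u + v) := by ring
    rw [e, abs_mul, abs_of_nonneg (by linarith : 0 ≤ u + v)]
  have h3 : u + v ≤ |u ^ 2 - v ^ 2| := by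
    rw [h2]; nlinarith
  have h4 : |u ^ 2 - v ^ 2| ≤ |u ^ 2 - x ^ 3| + |v ^ 2 - x ^ 3| := by
    have e : u ^ 2 - v ^ 2 = (u ^ 2 - x ^ 3) - (v ^ 2 - x ^ 3) := by ring
    rw [e]; exact abs_sub _ _
  have h5 : 16 * u < x := by linarith
  have h6 := neg_abs_le (u ^ 2 - x ^ 3)
  have hx1 : 1 ≤ x := hx0
  have h7 : x ^ 2 ≤ x ^ 3 := pow_le_pow_right₀ hx1 (by norm_num)
  have h8 : x ≤ x ^ 3 := le_self_pow₀ hx1 (by norm_num)
  have h9 : (16 * u) ^ 2 ≤ x ^ 2 := pow_le_pow_left₀ (by linarith) h5.le 2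
  nlinarith

theorem countE (γ : ℝ) (hγ : 5 / 9 < γ) : ∃ K : ℝ, 1 ≤ K ∧ ∀ Y : ℝ, 1 ≤ Y → ∀ U : Finset ℤ,
    (∀ y ∈ U, |(y : ℝ)| ≤ Y ∧ Bad y) → (U.card : ℝ) ≤ K * Y ^ γ := by
  obtain ⟨C, hC⟩ := Pool.Agent.V60.Hall.count (3 / 2 * γ - 5 / 6) (by linarith)
  refine ⟨2 * (|C| + 1) * 2 ^ (3 / 2 * γ), ?_, ?_⟩
  · have h1 : (1 : ℝ) ≤ 2 ^ (3 / 2 * γ) := Real.one_le_rpow (by norm_num) (by linarith)
    have h2 := abs_nonneg C
    nlinarith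
  intro Y hY U hU
  have hY0 : 0 < Y := by linarith
  have hch : ∀ y : ℤ, ∃ x : ℤ, y ∈ U → y ^ 2 ≠ x ^ 3 ∧ 32 * |y ^ 2 - x ^ 3| < |x| := by
    intro y
    by_cases hy : y ∈ U
    · obtain ⟨h1, x, h2, h3⟩ := hU y hy
      exact ⟨x, fun _ => ⟨h2, h3⟩⟩
    · exact ⟨0, fun h => absurd h hy⟩
  choose g hg using hch
  have hX : 1 ≤ 2 * Y ^ (2 / 3 : ℝ) := by
    have : 1 ≤ Y ^ (2 / 3 : ℝ) := Real.one_le_rpow hY (by norm_num)
    linarith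
  obtain ⟨hfin, hcard⟩ := hC (2 * Y ^ (2 / 3 : ℝ)) hX
  have h1 : U.card ≤ 2 * (U.image (fun y => (g y).natAbs)).card := by
    apply Finset.card_le_mul_card_image
    intro t ht
    rw [mem_image] at ht
    obtain ⟨y₀, hy₀, rfl⟩ := ht
    have hsub : U.filter (fun y => (g y).natAbs = (g y₀).natAbs) ⊆ {y₀, -y₀} := by
      intro y hy
      rw [mem_filter] at hy
      have a1 := (hg y hy.1).2
      have a2 := (hg y₀ hy₀).2
      have p1 := bad_pos a1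
      have p2 := bad_pos a2
      have e : g y = g y₀ := by omega
      rw [e] at a1
      have h2 := bad_unique a1 a2
      rw [mem_insert, mem_singleton]
      exact abs_eq_abs.1 h2
    exact (Finset.card_le_card hsub).trans Finset.card_le_two
  have h2 : (U.image (fun y => (g y).natAbs)).card ≤
      {t : ℕ | t ∈ Pool.Agent.V60.Hall.E ∧ (t : ℝ) ≤ 2 * Y ^ (2 / 3 : ℝ)}.ncard := by
    rw [← Set.ncard_coe_finset]
    refine Set.ncard_le_ncard ?_ hfin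
    intro t ht
    rw [Finset.mem_coe, mem_image] at ht
    obtain ⟨y, hy, rfl⟩ := ht
    obtain ⟨a1, a2⟩ := hg y hy
    refine ⟨bad_mem a1 a2, ?_⟩
    have hx0 := bad_pos a2
    have h3 := bad_size a2
    have h4 : ((g y).natAbs : ℝ) = (g y : ℝ) := by
      rw [Nat.cast_natAbs, abs_of_pos hx0]
    rw [h4]
    have h5 : (g y : ℝ) ^ 3 ≤ 2 * (y : ℝ) ^ 2 := by exact_mod_cast h3
    have h6 : (y : ℝ) ^ 2 ≤ Y ^ 2 := by
      rw [← sq_abs]; exact pow_le_pow_left₀ (abs_nonneg _) (hU y hy).1 2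
    have h7 : (2 * Y ^ (2 / 3 : ℝ)) ^ 3 = 8 * Y ^ 2 := by
      rw [mul_pow, ← Real.rpow_natCast (Y ^ (2 / 3 : ℝ)) 3, ← Real.rpow_mul hY0.le, ← Real.rpow_natCast Y 2]
      norm_num
    by_contra hcon
    push Not at hcon
    have h8 := pow_lt_pow_left₀ hcon (by positivity) (by norm_num : (3 : ℕ) ≠ 0)
    rw [h7] at h8
    nlinarith [sq_nonneg Y]
  have h3 : 5 / 6 + (3 / 2 * γ - 5 / 6) = 3 / 2 * γ := by ring
  rw [h3] at hcard
  have h4 : (2 * Y ^ (2 / 3 : ℝ)) ^ (3 / 2 * γ) = 2 ^ (3 / 2 * γ) * Y ^ γ := by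
    rw [Real.mul_rpow (by norm_num) (by positivity), ← Real.rpow_mul hY0.le]
    congr 2
    ring
  rw [h4] at hcard
  have h5 : (U.card : ℝ) ≤ 2 * ({t : ℕ | t ∈ Pool.Agent.V60.Hall.E ∧ (t : ℝ) ≤ 2 * Y ^ (2 / 3 : ℝ)}.ncard : ℝ) := by
    exact_mod_cast h1.trans (Nat.mul_le_mul_left 2 h2)
  have h6 : 0 ≤ (2 : ℝ) ^ (3 / 2 * γ) * Y ^ γ := by positivity
  have h7 : C * (2 ^ (3 / 2 * γ) * Y ^ γ) ≤ (|C| + 1) * (2 ^ (3 / 2 * γ) * Y ^ γ) := by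
    apply mul_le_mul_of_nonneg_right _ h6
    have := le_abs_self C
    linarith
  linarith

end T9h23.Ru
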