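import Pool.Agent.T9h23.Ru.R5
import Pool.Agent.T9h23.Ru.R6

/-! # The proportion of the polynomials with a given value at a given argument -/

set_option autoImplicit false

namespace T9h23.Ru

open Finset T9h23.Op
open scoped Classical

theorem card_wbox (d H : ℕ) : ((wbox d H).card : ℝ) = ∏ i : Fin d, (2 * (H : ℝ) ^ (d - (i : ℕ)) + 1) := by
  unfold wbox
  rw [card_gbox]
  push_cast
  rfl

theorem filter_mv (d H : ℕ) (n v : ℤ) : (wbox d H).filter (fun a => mv a n = v) =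
    (wbox d H).filter (fun a => ev a n = v - n ^ d) := by
  apply Finset.filter_congr
  intro a _
  rw [mv_ev]
  constructor <;> intro h <;> linarith

/-- per value and argument -/
theorem ratio (d : ℕ) (hd : 1 ≤ d) (H : ℕ) (n v : ℤ) (hn : n ≠ 0) :
    (((wbox d H).filter (fun a => mv a n = v)).card : ℝ) ≤ (wbox d H).card *
      ((2 * (H : ℝ) + 1)⁻¹ * ∏ i ∈ range (d - 1), (|(n : ℝ)|⁻¹ + (2 * (H : ℝ) ^ (d - i) + 1)⁻¹)) := by
  obtain ⟨D, rfl⟩ : ∃ D, d = D + 1 := ⟨d - 1, by omega⟩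
  rw [filter_mv]
  have hn0 : (0 : ℝ) < |(n : ℝ)| := by
    rw [abs_pos]; exact_mod_cast hn
  have h1 := cntw n hn D (fun i : Fin (D + 1) => H ^ (D + 1 - (i : ℕ))) (v - n ^ (D + 1))
  refine (show (((wbox (D + 1) H).filter (fun a => ev a n = v - n ^ (D + 1))).card : ℝ) ≤ _ from h1).trans ?_
  rw [card_wbox, Fin.prod_univ_castSucc, Nat.add_sub_cancel, Finset.prod_range]
  have h2 : ∏ i : Fin D, ((2 * (((H ^ (D + 1 - ((i.castSucc : Fin (D + 1)) : ℕ)) : ℕ)) : ℝ) + 1) / |(n : ℝ)| + 1) =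
      (∏ i : Fin D, (2 * (H : ℝ) ^ (D + 1 - ((i.castSucc : Fin (D + 1)) : ℕ)) + 1)) *
      ∏ i : Fin D, (|(n : ℝ)|⁻¹ + (2 * (H : ℝ) ^ (D + 1 - (i : ℕ)) + 1)⁻¹) := by
    rw [← Finset.prod_mul_distrib]
    refine Finset.prod_congr rfl fun i _ => ?_
    rw [Fin.val_castSucc]
    push_cast
    have : 0 < 2 * (H : ℝ) ^ (D + 1 - (i : ℕ)) + 1 := by positivity
    field_simp
  rw [h2, Fin.val_last, show D + 1 - D = 1 by omega, pow_one]
  have h3 : (0 : ℝ) < 2 * H + 1 := by positivity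
  apply le_of_eq
  field_simp

/-- one factor -/
theorem factor (H N m τ : ℝ) (hH : 1 ≤ H) (hN : H ≤ N) (hτ : 1 < τ) (hNτ : N ≤ H ^ τ) (hm : N ≤ m) (w : ℕ)
    (hw : 1 ≤ w) : m⁻¹ + (2 * H ^ w + 1)⁻¹ ≤ 2 * (H * (N / H) ^ ((min τ w - 1) / (τ - 1)))⁻¹ := by
  have hH0 : 0 < H := by linarith
  have hN0 : 0 < N := by linarith
  have hτ0 : 0 < τ - 1 := by linarith
  have hw1 : (1 : ℝ) ≤ w := by exact_mod_cast hw
  have hq : 1 ≤ N / H := by rw [le_div_iff₀ hH0]; linarith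
  have hq0 : 0 < N / H := by linarith
  set u : ℝ := (min τ w - 1) / (τ - 1) with hu
  have hu1 : u ≤ 1 := by
    rw [hu, div_le_one hτ0]
    linarith [min_le_left τ (w : ℝ)]
  have hu0 : 0 ≤ u := by
    rw [hu]
    apply div_nonneg _ hτ0.le
    have : 1 ≤ min τ (w : ℝ) := le_min hτ.le hw1
    linarith
  have hpos : 0 < H * (N / H) ^ u := by positivity
  have h1 : H * (N / H) ^ u ≤ N := by
    calc H * (N / H) ^ u ≤ H * (N / H) ^ (1 : ℝ) := by
          gcongr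
      _ = N := by rw [Real.rpow_one]; field_simp
  have h2 : H * (N / H) ^ u ≤ H ^ w := by
    have h3 : N / H ≤ H ^ (τ - 1) := by
      rw [div_le_iff₀ hH0]
      have : H ^ (τ - 1) * H = H ^ τ := by
        nth_rewrite 2 [← Real.rpow_one H]
        rw [← Real.rpow_add hH0]
        congr 1
        ring
      rw [this]; exact hNτ
    calc H * (N / H) ^ u ≤ H * (H ^ (τ - 1)) ^ u := by gcongr
      _ = H ^ (1 : ℝ) * H ^ ((τ - 1) * u) := by rw [Real.rpow_one, ← Real.rpow_mul hH0.le]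
      _ = H ^ (min τ w) := by
          rw [← Real.rpow_add hH0]
          congr 1
          rw [hu]
          field_simp
          ring
      _ ≤ H ^ (w : ℝ) := Real.rpow_le_rpow_of_exponent_le hH (min_le_right _ _)
      _ = H ^ w := Real.rpow_natCast _ _
  have h3 : m⁻¹ ≤ (H * (N / H) ^ u)⁻¹ := by
    rw [inv_le_inv₀ (by linarith) hpos]
    linarith
  have h4 : (2 * H ^ w + 1)⁻¹ ≤ (H * (N / H) ^ u)⁻¹ := by
    rw [inv_le_inv₀ (by positivity) hpos]
    have : 0 < H ^ w := by positivity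
    linarith
  linarith

/-- the sum of the exponents -/
theorem sum_u (e : ℕ) (he : 2 ≤ e) : 5 * (e : ℝ) / 3 + 1 / 20 ≤
    ∑ i ∈ range (3 * e - 1), (min (2 * (e : ℝ) + 11 / 10) (((3 * e - i : ℕ)) : ℝ) - 1) / (2 * (e : ℝ) + 11 / 10 - 1) := by
  have he2 : (2 : ℝ) ≤ e := by exact_mod_cast he
  have hden : 0 < 2 * (e : ℝ) + 11 / 10 - 1 := by linarith
  rw [← Finset.sum_div, le_div_iff₀ hden]
  have hsplit : range (3 * e - 1) = range ((e - 1) + 2 * e) := by congr 1; omega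
  rw [hsplit, Finset.sum_range_add]
  have h1 : ∑ x ∈ range (e - 1), (min (2 * (e : ℝ) + 11 / 10) (((3 * e - x : ℕ)) : ℝ) - 1) =
      ((e : ℝ) - 1) * (2 * e + 1 / 10) := by
    have h2 : ∀ x ∈ range (e - 1), (min (2 * (e : ℝ) + 11 / 10) (((3 * e - x : ℕ)) : ℝ) - 1) = 2 * e + 1 / 10 := by
      intro x hx
      rw [mem_range] at hx
      have h3 : ((2 * e + 2 : ℕ) : ℝ) ≤ ((3 * e - x : ℕ) : ℝ) := by exact_mod_cast (by omega : 2 * e + 2 ≤ 3 * e - x)
      push_cast at h3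
      rw [min_eq_left (by linarith)]
      ring
    rw [Finset.sum_congr rfl h2, Finset.sum_const, card_range, nsmul_eq_mul, Nat.cast_sub (by omega)]
    push_cast
    ring
  have h2 : ∑ x ∈ range (2 * e), (min (2 * (e : ℝ) + 11 / 10) (((3 * e - (e - 1 + x) : ℕ)) : ℝ) - 1) =
      (e : ℝ) * (2 * e + 1) := by
    have h3 : ∀ x ∈ range (2 * e), (min (2 * (e : ℝ) + 11 / 10) (((3 * e - (e - 1 + x) : ℕ)) : ℝ) - 1) =
        2 * (e : ℝ) - x := by
      intro x hx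
      rw [mem_range] at hx
      have h4 : 3 * e - (e - 1 + x) = 2 * e + 1 - x := by omega
      have h5 : ((3 * e - (e - 1 + x) : ℕ) : ℝ) = 2 * e + 1 - x := by
        rw [h4, Nat.cast_sub (by omega)]
        push_cast
        ring
      rw [h5, min_eq_right]
      · ring
      · have : (0 : ℝ) ≤ x := by positivity
        linarith
    rw [Finset.sum_congr rfl h3, Finset.sum_sub_distrib, Finset.sum_const, card_range, nsmul_eq_mul]
    have h4 : ∑ x ∈ range (2 * e), (x : ℝ) = (e : ℝ) * (2 * e - 1) := by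
      have h5 := Finset.sum_range_id_mul_two (2 * e)
      have h6 : (((∑ i ∈ range (2 * e), i) * 2 : ℕ) : ℝ) = ((2 * e * (2 * e - 1) : ℕ) : ℝ) := by exact_mod_cast h5
      push_cast [Nat.cast_sub (show 1 ≤ 2 * e by omega)] at h6
      linarith
    rw [h4]
    push_cast
    ring
  rw [h1, h2]
  nlinarith

/-- per value and argument, large arguments -/
theorem ratio_large (e : ℕ) (he : 2 ≤ e) (H N : ℕ) (hH : 1 ≤ H) (hN : H ≤ N)
    (hNτ : (N : ℝ) ≤ (H : ℝ) ^ (2 * (e : ℝ) + 11 / 10)) (n v : ℤ) (hn : (N : ℤ) ≤ |n|) :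
    (((wbox (3 * e) H).filter (fun a => mv a n = v)).card : ℝ) ≤ (wbox (3 * e) H).card *
      ((2 * (H : ℝ) + 1)⁻¹ * (2 ^ (3 * e - 1) *
        ((H : ℝ) ^ (3 * e - 1) * ((N : ℝ) / H) ^ (5 * (e : ℝ) / 3 + 1 / 20))⁻¹)) := by
  have hHr : (1 : ℝ) ≤ H := by exact_mod_cast hH
  have hH0 : (0 : ℝ) < H := by linarith
  have hNr : (H : ℝ) ≤ N := by exact_mod_cast hN
  have hnr : (N : ℝ) ≤ |(n : ℝ)| := by exact_mod_cast hn
  have he2 : (2 : ℝ) ≤ e := by exact_mod_cast he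
  have hn0 : n ≠ 0 := by
    rintro rfl
    simp at hn
    omega
  have hq : 1 ≤ (N : ℝ) / H := by rw [le_div_iff₀ hH0]; linarith
  have hq0 : 0 < (N : ℝ) / H := by linarith
  refine (ratio (3 * e) (by omega) H n v hn0).trans ?_
  have hP : ∏ i ∈ range (3 * e - 1), (|(n : ℝ)|⁻¹ + (2 * (H : ℝ) ^ (3 * e - i) + 1)⁻¹) ≤
      2 ^ (3 * e - 1) * ((H : ℝ) ^ (3 * e - 1) * ((N : ℝ) / H) ^ (5 * (e : ℝ) / 3 + 1 / 20))⁻¹ := by
    calc ∏ i ∈ range (3 * e - 1), (|(n : ℝ)|⁻¹ + (2 * (H : ℝ) ^ (3 * e - i) + 1)⁻¹)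
        ≤ ∏ i ∈ range (3 * e - 1), (2 * ((H : ℝ) * ((N : ℝ) / H) ^
            ((min (2 * (e : ℝ) + 11 / 10) (((3 * e - i : ℕ)) : ℝ) - 1) / (2 * (e : ℝ) + 11 / 10 - 1)))⁻¹) := by
          apply Finset.prod_le_prod
          · intro i _; positivity
          · intro i hi
            rw [mem_range] at hi
            exact factor H N |(n : ℝ)| _ hHr hNr (by linarith) hNτ hnr (3 * e - i) (by omega)
      _ = 2 ^ (3 * e - 1) * ((H : ℝ) ^ (3 * e - 1) * ((N : ℝ) / H) ^ (∑ i ∈ range (3 * e - 1),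
            (min (2 * (e : ℝ) + 11 / 10) (((3 * e - i : ℕ)) : ℝ) - 1) / (2 * (e : ℝ) + 11 / 10 - 1)))⁻¹ := by
          rw [Finset.prod_mul_distrib, Finset.prod_const, card_range, Finset.prod_inv_distrib,
            Finset.prod_mul_distrib, Finset.prod_const, card_range, Real.rpow_sum_of_pos hq0]
      _ ≤ _ := by
          gcongr
          exact sum_u e he
  gcongr

end T9h23.Ru
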